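import Pool.Agent.Helper365.SB.Geo
import Pool.Agent.Y981.L2.Diam
import Pool.Agent.Y981.L2X.Leg

/-!
Confined bridges, tubes and turns: lower bounds for their numbers.
-/

set_option autoImplicit false

namespace Pool.Agent.Helper365.SB

open H981 Finset Pool.Agent.TH795.EP Pool.Agent.TH795.EP2 Pool.Agent.Y981.L2

/-- the square of the logarithm -/
noncomputable def Lg (n : ℕ) : ℝ := Real.log n ^ 2

theorem q_eq (n : ℕ) (A : ℝ) : q n A = Real.exp (A * Lg n) := rfl

theorem Lg_ge {n : ℕ} (hn : 2 ≤ n) : (0.47 : ℝ) ≤ Lg n := by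
  have h1 := log_ge hn
  have h2 := Real.log_two_gt_d9
  unfold Lg
  have h3 : (0.69 : ℝ) ^ 2 ≤ Real.log n ^ 2 := pow_le_pow_left₀ (by norm_num) (by linarith) 2
  norm_num at h3 ⊢
  linarith

theorem Lg_mono {m n : ℕ} (hm : 2 ≤ m) (h : m ≤ n) : Lg m ≤ Lg n := by
  unfold Lg
  apply pow_le_pow_left₀ (log_pos' hm).le
  exact Real.log_le_log (by exact_mod_cast (by omega : 0 < m)) (by exact_mod_cast h)

theorem mu_le_four : mu ≤ 4 := by
  have h := mu_pow_le 1
  rw [← c_eq, pow_one] at h
  have : c 1 ≤ 4 := by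
    unfold c
    calc (fs Saw 1).card ≤ (univ.image (fun s : St => [s])).card := by
          apply Finset.card_le_card
          intro w hw
          rw [mem_fs] at hw
          obtain ⟨s, rfl⟩ := List.length_eq_one_iff.1 hw.2
          exact Finset.mem_image_of_mem _ (mem_univ s)
      _ ≤ (univ : Finset St).card := Finset.card_image_le
      _ = 4 := rfl
  have h2 : (c 1 : ℝ) ≤ 4 := by exact_mod_cast this
  linarith

theorem card_isB (m : ℕ) : ((fs IsB m).card : ℝ) = br' m := by
  rw [br'_eq, B_card_eq, ← Nat.card_eq_finsetCard]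
  congr 1
  apply Nat.card_congr
  apply Equiv.subtypeEquivRight
  intro w
  exact mem_fs

/-- a word which is not wide stays near its start -/
theorem not_wide {r : ℝ} {w : List St} (h : ¬ Wide r w) {k : ℕ} (hk : k ≤ w.length) :
    ((path w k).1 : ℝ) < r ∧ ((path w k).2 : ℝ) < r ∧ -r < ((path w k).2 : ℝ) := by
  have h1 : ln2 ((path w k).1, (path w k).2) < r := by
    by_contra hcon
    push Not at hcon
    apply h
    refine ⟨0, k, Nat.zero_le _, hk, ?_⟩
    rw [path_zero]
    simpa using hcon
  unfold ln2 at h1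
  simp only at h1
  have h2 : |((path w k).1 : ℝ)| ≤ Real.sqrt (((path w k).1 : ℝ) ^ 2 + ((path w k).2 : ℝ) ^ 2) := by
    apply Real.abs_le_sqrt
    nlinarith [sq_nonneg ((path w k).2 : ℝ)]
  have h3 : |((path w k).2 : ℝ)| ≤ Real.sqrt (((path w k).1 : ℝ) ^ 2 + ((path w k).2 : ℝ) ^ 2) := by
    apply Real.abs_le_sqrt
    nlinarith [sq_nonneg ((path w k).1 : ℝ)]
  have h4 := abs_lt.1 (lt_of_le_of_lt h2 h1)
  have h5 := abs_lt.1 (lt_of_le_of_lt h3 h1)
  exact ⟨h4.2, h5.2, h5.1⟩

theorem isB_path {w : List St} (h : IsB w) {k : ℕ} (hk : k ≤ w.length) :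
    (1 ≤ k → 0 < (path w k).1) ∧ (path w k).1 ≤ dx w := by
  obtain ⟨a, hS, hP, hle, hdx⟩ := h
  refine ⟨fun h1 => ?_, ?_⟩
  · apply hP (w.take k) (List.take_prefix _ _)
    intro h0
    have := congrArg List.length h0
    rw [List.length_take, List.length_nil] at this
    omega
  · rw [hdx]
    exact hle (w.take k) (List.take_prefix _ _)

theorem Br_of_isB {R : ℕ} {w : List St} (h : IsB w) (hw : ¬ Wide (R : ℝ) w) :
    Br (dx w) (dy w) R w := by
  have hS : Saw w := by
    obtain ⟨a, h1, -⟩ := h
    exact h1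
  refine ⟨hS, rfl, rfl, fun k h1 hk => (isB_path h hk).1 h1, fun k hk => (isB_path h hk).2,
    fun k hk => ?_, fun k hk => ?_⟩
  · have h1 := (not_wide hw hk).2.2
    have h2 : -(R : ℤ) < (path w k).2 := by exact_mod_cast h1
    exact h2.le
  · have h1 := (not_wide hw hk).2.1
    have h2 : (path w k).2 < (R : ℤ) := by exact_mod_cast h1
    exact h2.le

theorem Tl_of_isB {R : ℕ} {w : List St} (h : IsB w) (hw : ¬ Wide (R : ℝ) w) : Tl R w := by
  have h0 := Br_of_isB h hw
  refine ⟨h0.saw, h0.pos, fun k hk => ?_, h0.lo, h0.hi⟩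
  have h1 := (not_wide hw hk).1
  have h2 : (path w k).1 < (R : ℤ) := by exact_mod_cast h1
  exact h2.le

theorem path_abs (w : List St) (k : ℕ) : |(path w k).1| + |(path w k).2| ≤ k := by
  have h := abs_add_abs_le (w.take k)
  rw [List.length_take] at h
  unfold path
  simp only
  have : (min k w.length : ℕ) ≤ k := min_le_left _ _
  have h2 : ((min k w.length : ℕ) : ℤ) ≤ k := by exact_mod_cast this
  linarith

theorem not_wide_short {r : ℝ} {w : List St} (hr : (w.length : ℝ) < r) : ¬ Wide r w := by
  rintro ⟨i, j, hij, hj, h⟩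
  obtain ⟨l, rfl⟩ : ∃ l, j = i + l := ⟨j - i, by omega⟩
  rw [path_drop w i l] at h
  simp only [add_sub_cancel_left] at h
  have h1 := path_abs (w.drop i) l
  have h2 : ln2 ((path (w.drop i) l).1, (path (w.drop i) l).2) ≤ l := by
    unfold ln2
    apply Real.sqrt_le_iff.2
    refine ⟨Nat.cast_nonneg l, ?_⟩
    simp only
    have h3 : |((path (w.drop i) l).1 : ℝ)| + |((path (w.drop i) l).2 : ℝ)| ≤ l := by
      exact_mod_cast h1
    rw [← sq_abs ((path (w.drop i) l).1 : ℝ), ← sq_abs ((path (w.drop i) l).2 : ℝ)]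
    have h4 := abs_nonneg ((path (w.drop i) l).1 : ℝ)
    have h5 := abs_nonneg ((path (w.drop i) l).2 : ℝ)
    nlinarith
  have h3 : (l : ℝ) ≤ w.length := by exact_mod_cast (by omega : l ≤ w.length)
  linarith

/-- **confined bridges** -/
theorem conf_bridges : ∃ A : ℝ, 3 ≤ A ∧ ∀ N : ℕ, 2 ≤ N → ∀ r : ℝ, 2 ≤ r →
    A * Lg N ≤ r * mass (1 / N) → ∀ m ≤ N,
    mu ^ m * q N (-A) ≤ ((fs (fun w => IsB w ∧ ¬ Wide r w) m).card : ℝ) := by
  classical
  obtain ⟨K0, hK0, h0⟩ := Pool.Agent.TH508.LT.sq_lower2
  obtain ⟨K1, hK1, h1⟩ := dfar_le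
  obtain ⟨K2, hK2, h2⟩ := Pool.Agent.Y981.L2X.far_upper
  obtain ⟨K3, hK3, h3, -⟩ := exists_K
  refine ⟨4 * (K0 + K1 + K2 + K3 + 3), by linarith, ?_⟩
  intro N hN r hr hrA m hm
  obtain ⟨A, hA⟩ : ∃ A, A = 4 * (K0 + K1 + K2 + K3 + 3) := ⟨_, rfl⟩
  rw [← hA] at hrA ⊢
  have hmu := mu_pos
  have hLg := Lg_ge hN
  have hA3 : 12 ≤ A := by rw [hA]; linarith
  rcases Nat.lt_or_ge m 2 with h | h
  · -- short words
    have hcard : (1 : ℝ) ≤ ((fs (fun w => IsB w ∧ ¬ Wide r w) m).card : ℝ) := by
      have : 1 ≤ (fs (fun w => IsB w ∧ ¬ Wide r w) m).card := by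
        apply Finset.one_le_card.2
        interval_cases m
        · refine ⟨[], ?_⟩
          rw [mem_fs]
          exact ⟨⟨isB_nil, not_wide_short (by simp; linarith)⟩, rfl⟩
        · refine ⟨[St.E], ?_⟩
          rw [mem_fs]
          refine ⟨⟨?_, not_wide_short (by simp; linarith)⟩, rfl⟩
          rw [isB_iff (n := 1) rfl]
          constructor
          · intro v hv hx hy
            have : v = [] ∨ v = [St.E] := by
              have hl := hv.length_le
              rcases v with _ | ⟨s, v⟩
              · exact Or.inl rfl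
              · right
                simp only [List.length_cons, List.length_nil] at hl
                have : v = [] := List.length_eq_zero_iff.1 (by omega)
                subst this
                have := hv.subset (List.mem_singleton.2 rfl)
                rw [List.mem_singleton] at this
                rw [this]
            rcases this with h | h
            · exact h
            · rw [h] at hx
              simp at hx
          · intro i hi
            have : i = 1 := by
              have := i.2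
              apply Fin.ext
              have h2 : (i : ℕ) ≠ 0 := fun h => hi (Fin.ext h)
              simp only [Fin.val_one]
              omega
            subst this
            simp [path]
      exact_mod_cast this
    refine le_trans ?_ hcard
    have e1 : mu ^ m ≤ 4 := by
      interval_cases m
      · norm_num
      · simpa using mu_le_four
    have e2 : q N (-A) ≤ 1 / 4 := by
      rw [q_eq]
      have h5 : -A * Lg N ≤ -2 := by nlinarith
      have h6 : Real.exp (-A * Lg N) ≤ Real.exp (-2) := Real.exp_le_exp.2 h5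
      have h7 : Real.exp (-2) ≤ 1 / 4 := by
        rw [Real.exp_neg, inv_eq_one_div]
        apply one_div_le_one_div_of_le (by norm_num)
        have := Real.add_one_le_exp (1 : ℝ)
        have h8 : Real.exp 2 = Real.exp 1 * Real.exp 1 := by rw [← Real.exp_add]; norm_num
        rw [h8]
        nlinarith
      linarith
    have e3 := q_pos N (-A)
    have e4 : 0 < mu ^ m := pow_pos hmu m
    nlinarith
  · -- long words
    have hm1 : (0 : ℝ) < m := by exact_mod_cast (by omega : 0 < m)
    have hLm := Lg_mono h hm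
    have hLm0 := Lg_ge h
    have hc := TH795.EP2.c_pos m
    have hsub : (fs IsB m).card ≤ (fs (fun w => IsB w ∧ ¬ Wide r w) m).card +
        (fs (fun w => Saw w ∧ Wide r w) m).card := by
      rw [← Finset.card_union_add_card_inter]
      refine le_trans (Finset.card_le_card ?_) (Nat.le_add_right _ _)
      intro w hw
      rw [mem_fs] at hw
      rw [Finset.mem_union, mem_fs, mem_fs]
      by_cases hW : Wide r w
      · right
        obtain ⟨a, h1, -⟩ := hw.1
        exact ⟨⟨h1, hW⟩, hw.2⟩
      · exact Or.inl ⟨⟨hw.1, hW⟩, hw.2⟩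
    have hsubR : ((fs IsB m).card : ℝ) ≤ ((fs (fun w => IsB w ∧ ¬ Wide r w) m).card : ℝ) +
        ((fs (fun w => Saw w ∧ Wide r w) m).card : ℝ) := by exact_mod_cast hsub
    rw [card_isB] at hsubR
    have hb : mu ^ m * q N (-K0) ≤ br' m := by
      refine le_trans ?_ (h0 m h)
      apply mul_le_mul_of_nonneg_left _ (pow_pos hmu m).le
      rw [q_eq]
      apply Real.exp_le_exp.2
      have : Real.log m ^ 2 = Lg m := rfl
      rw [this]
      nlinarith
    have hw : ((fs (fun w => Saw w ∧ Wide r w) m).card : ℝ) ≤ mu ^ m * q N (-(K0 + 3)) := by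
      have e1 : ((fs (fun w => Saw w ∧ Wide r w) m).card : ℝ) = dfar m r * c m := by
        unfold dfar
        rw [div_mul_cancel₀ _ hc.ne']
      rw [e1]
      have e2 := h1 m h r
      have e3 := h2 m h r (by linarith)
      have e4 := h3 m h m le_rfl
      have e5 : 0 ≤ far m r := by unfold far; positivity
      have e6 := q_pos m K1
      have hmm : mass (1 / (N : ℝ)) ≤ mass (1 / (m : ℝ)) := by
        apply mass_mono (by positivity)
        apply one_div_le_one_div_of_le hm1
        exact_mod_cast hm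
      calc dfar m r * c m ≤ (q m K1 * far m r) * c m := mul_le_mul_of_nonneg_right e2 hc.le
        _ ≤ (q m K1 * Real.exp (K2 * Real.log m ^ 2 - r * mass (1 / m) / 4)) *
            (mu ^ m * q m K3) := by gcongr
        _ = mu ^ m * Real.exp ((K1 + K2 + K3) * Lg m - r * mass (1 / m) / 4) := by
            rw [q_eq, q_eq]
            have : Real.log m ^ 2 = Lg m := rfl
            rw [this]
            rw [show (K1 + K2 + K3) * Lg m - r * mass (1 / m) / 4 =
              K1 * Lg m + (K2 * Lg m - r * mass (1 / m) / 4) + K3 * Lg m by ring,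
              Real.exp_add, Real.exp_add]
            ring
        _ ≤ _ := by
            apply mul_le_mul_of_nonneg_left _ (pow_pos hmu m).le
            rw [q_eq]
            apply Real.exp_le_exp.2
            have g1 : r * mass (1 / N) ≤ r * mass (1 / m) :=
              mul_le_mul_of_nonneg_left hmm (by linarith)
            have g2 : (K1 + K2 + K3) * Lg m ≤ (K1 + K2 + K3) * Lg N :=
              mul_le_mul_of_nonneg_left hLm (by positivity)
            have g3 : A * Lg N / 4 = (K0 + K1 + K2 + K3 + 3) * Lg N := by rw [hA]; ring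
            nlinarith
    have hhalf : q N (-(K0 + 3)) ≤ q N (-K0) / 2 := by
      rw [q_eq, q_eq, show -(K0 + 3) * Lg N = -K0 * Lg N + -(3 * Lg N) by ring, Real.exp_add]
      have h5 : Real.exp (-(3 * Lg N)) ≤ 1 / 2 := by
        have h6 : Real.exp (-(3 * Lg N)) ≤ Real.exp (-1) := Real.exp_le_exp.2 (by linarith)
        have h7 : Real.exp (-1) ≤ 1 / 2 := by
          rw [Real.exp_neg, inv_eq_one_div]
          apply one_div_le_one_div_of_le (by norm_num)
          have := Real.add_one_le_exp (1 : ℝ)
          linarith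
        linarith
      have := Real.exp_pos (-K0 * Lg N)
      nlinarith
    have hfin : q N (-A) ≤ q N (-K0) / 2 := by
      refine le_trans (q_mono hN ?_) hhalf
      rw [hA]
      nlinarith
    have hp := pow_pos hmu m
    nlinarith

/-- **tubes and last pieces** -/
theorem blocks : ∃ A : ℝ, 3 ≤ A ∧ ∀ N : ℕ, 2 ≤ N → ∀ R : ℕ, 2 ≤ R →
    A * Lg N ≤ R * mass (1 / N) →
    (∃ h : ℕ, 1 ≤ h ∧ h ≤ 2 * R ∧ mu ^ (2 * (N / 2)) * q N (-A) ≤
      ((fs (Br h 0 (2 * R)) (2 * (N / 2))).card : ℝ)) ∧
    ∀ m ≤ N, mu ^ m * q N (-A) ≤ ((fs (Tl R) m).card : ℝ) := by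
  classical
  obtain ⟨A0, hA0, h0⟩ := conf_bridges
  refine ⟨2 * (A0 + 12), by linarith, ?_⟩
  intro N hN R hR hRA
  have hmu := mu_pos
  have hLg := Lg_ge hN
  have hR' : (2 : ℝ) ≤ R := by exact_mod_cast hR
  have hc := h0 N hN R hR' (by nlinarith)
  constructor
  · obtain ⟨M, hM⟩ : ∃ M, M = N / 2 := ⟨_, rfl⟩
    rw [← hM]
    have hM1 : 1 ≤ M := by omega
    have hMN : M ≤ N := by omega
    have h1 := hc M hMN
    -- pigeonhole
    obtain ⟨h, v, hv, hhR, hh1, hcard⟩ : ∃ (h : ℕ) (v : ℤ), |v| ≤ R ∧ h ≤ R ∧ 1 ≤ h ∧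
        mu ^ M * q N (-(A0 + 12)) ≤ ((fs (Br h v R) M).card : ℝ) := by
      by_contra hcon
      push Not at hcon
      have hsub : fs (fun w => IsB w ∧ ¬ Wide (R : ℝ) w) M ⊆
          ((Icc (1 : ℤ) R) ×ˢ (Icc (-(R : ℤ)) R)).biUnion (fun p => fs (fun w => Br p.1 p.2 R w) M) := by
        intro w hw
        rw [mem_fs] at hw
        obtain ⟨⟨h2, h3⟩, h4⟩ := hw
        have h5 := Br_of_isB h2 h3
        have h6 := Tl_of_isB h2 h3
        rw [Finset.mem_biUnion]
        refine ⟨(dx w, dy w), ?_, ?_⟩
        · rw [Finset.mem_product, Finset.mem_Icc, Finset.mem_Icc]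
          have g1 := h5.pos w.length (by omega) le_rfl
          have g2 := h6.le w.length le_rfl
          have g3 := h6.lo w.length le_rfl
          have g4 := h6.hi w.length le_rfl
          rw [path_len] at g1 g2 g3 g4
          simp only at g1 g2 g3 g4 ⊢
          omega
        · rw [mem_fs]
          exact ⟨h5, h4⟩
      have h7 := (Finset.card_le_card hsub).trans Finset.card_biUnion_le
      have h8 : ((fs (fun w => IsB w ∧ ¬ Wide (R : ℝ) w) M).card : ℝ) ≤
          ∑ p ∈ (Icc (1 : ℤ) R) ×ˢ (Icc (-(R : ℤ)) R), ((fs (Br p.1 p.2 R) M).card : ℝ) := by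
        exact_mod_cast h7
      -- only `h ≤ M`, `|v| ≤ M` contribute
      have h9 : ∑ p ∈ (Icc (1 : ℤ) R) ×ˢ (Icc (-(R : ℤ)) R), ((fs (Br p.1 p.2 R) M).card : ℝ) ≤
          ∑ p ∈ (Icc (1 : ℤ) M) ×ˢ (Icc (-(M : ℤ)) M), mu ^ M * q N (-(A0 + 12)) := by
        have g1 : ∀ p ∈ (Icc (1 : ℤ) R) ×ˢ (Icc (-(R : ℤ)) R),
            ((fs (Br p.1 p.2 R) M).card : ℝ) ≤
              if p ∈ (Icc (1 : ℤ) M) ×ˢ (Icc (-(M : ℤ)) M) then mu ^ M * q N (-(A0 + 12)) else 0 := by
          rintro ⟨x, y⟩ hp
          rw [Finset.mem_product, Finset.mem_Icc, Finset.mem_Icc] at hp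
          simp only at hp
          split_ifs with hq
          · obtain ⟨x', rfl⟩ : ∃ x' : ℕ, x = x' := ⟨x.toNat, by omega⟩
            exact (hcon x' y (abs_le.2 ⟨by omega, by omega⟩) (by omega) (by omega)).le
          · have : (fs (Br x y R) M).card = 0 := by
              rw [Finset.card_eq_zero, Finset.eq_empty_iff_forall_notMem]
              intro w hw
              rw [mem_fs] at hw
              apply hq
              have g2 := abs_add_abs_le w
              rw [hw.1.ex, hw.1.ey, hw.2] at g2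
              have g3 := abs_nonneg x
              have g4 := abs_nonneg y
              have g5 := le_abs_self x
              have g6 := abs_le.1 (show |y| ≤ (M : ℤ) by omega)
              rw [Finset.mem_product, Finset.mem_Icc, Finset.mem_Icc]
              simp only
              omega
            simp only at this ⊢
            rw [this]
            simp
        refine (Finset.sum_le_sum g1).trans ?_
        rw [← Finset.sum_filter]
        apply Finset.sum_le_sum_of_subset_of_nonneg
        · intro p hp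
          rw [Finset.mem_filter] at hp
          exact hp.2
        · intro p _ _
          have := q_pos N (-(A0 + 12))
          have := pow_pos hmu M
          positivity
      rw [Finset.sum_const, nsmul_eq_mul, Finset.card_product] at h9
      have h10 : ((((Icc (1 : ℤ) M).card * (Icc (-(M : ℤ)) M).card : ℕ)) : ℝ) < (N : ℝ) ^ 4 := by
        rw [Int.card_Icc, Int.card_Icc]
        have g1 : ((M : ℤ) + 1 - 1).toNat = M := by omega
        have g2 : ((M : ℤ) + 1 - -(M : ℤ)).toNat = 2 * M + 1 := by omega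
        rw [g1, g2]
        have g3 : 2 * M ≤ N := by omega
        have g4 : M * (2 * M + 1) < N ^ 4 := by
          have : M * (2 * M + 1) ≤ N * (N + 1) := Nat.mul_le_mul (by omega) (by omega)
          have h11 : N * (N + 1) < N ^ 4 := by
            have : N ^ 4 = N * (N * (N * N)) := by ring
            rw [this]
            apply Nat.mul_lt_mul_of_pos_left _ (by omega)
            nlinarith [Nat.mul_le_mul hN hN]
          omega
        exact_mod_cast g4
      have h12 := pow_le_q hN 4
      norm_num at h12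
      have h13 : 0 < mu ^ M * q N (-(A0 + 12)) := mul_pos (pow_pos hmu M) (q_pos _ _)
      have h14 : mu ^ M * q N (-A0) ≤
          ((((Icc (1 : ℤ) M).card * (Icc (-(M : ℤ)) M).card : ℕ)) : ℝ) *
            (mu ^ M * q N (-(A0 + 12))) := h1.trans (h8.trans h9)
      have h15 : mu ^ M * q N (-A0) < q N 12 * (mu ^ M * q N (-(A0 + 12))) :=
        lt_of_le_of_lt h14 (mul_lt_mul_of_pos_right (lt_of_lt_of_le h10 h12) h13)
      have h16 : q N 12 * (mu ^ M * q N (-(A0 + 12))) = mu ^ M * q N (-A0) := by
        rw [mul_left_comm, q_mul]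
        congr 2
        ring
      linarith
    refine ⟨2 * h, by omega, by omega, ?_⟩
    have h2 := Br_card_ng h v R hv M
    have e1 : M + M = 2 * M := by ring
    have e2 : (2 * (h : ℤ)) = ((2 * h : ℕ) : ℤ) := by push_cast; ring
    rw [e1, e2] at h2
    have h3 : ((fs (Br h v R) M).card : ℝ) * ((fs (Br h v R) M).card : ℝ) ≤
        ((fs (Br ((2 * h : ℕ) : ℤ) 0 (2 * R)) (2 * M)).card : ℝ) := by exact_mod_cast h2
    refine le_trans ?_ h3
    have h4 : mu ^ (2 * M) * q N (-(2 * (A0 + 12))) =
        (mu ^ M * q N (-(A0 + 12))) * (mu ^ M * q N (-(A0 + 12))) := by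
      rw [show (mu ^ M * q N (-(A0 + 12))) * (mu ^ M * q N (-(A0 + 12))) =
        (mu ^ M * mu ^ M) * (q N (-(A0 + 12)) * q N (-(A0 + 12))) by ring, q_mul, ← pow_add]
      congr 2
      · ring
      · ring
    rw [h4]
    have h5 : 0 < mu ^ M * q N (-(A0 + 12)) := mul_pos (pow_pos hmu M) (q_pos _ _)
    exact mul_le_mul hcard hcard h5.le (h5.le.trans hcard)
  · intro m hm
    refine le_trans ?_ ((hc m hm).trans ?_)
    · apply mul_le_mul_of_nonneg_left _ (pow_pos hmu m).le
      exact q_mono hN (by linarith)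
    · exact_mod_cast Finset.card_le_card (fun w hw => by
        rw [mem_fs] at hw ⊢
        exact ⟨Tl_of_isB hw.1.1 hw.1.2, hw.2⟩)

end Pool.Agent.Helper365.SB
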