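import Pool.Agent.Helper365.SB.Turn

/-!
Confinement of the uniform self-avoiding word to balls and strips: final estimates.
-/

set_option autoImplicit false

namespace Pool.Agent.Helper365.SB

open H981 Finset Pool.Agent.TH795.EP Pool.Agent.TH795.EP2 Pool.Agent.Y981.L2

theorem Lg_le_sq {n : ℕ} (hn : 1 ≤ n) : Lg n ≤ (n : ℝ) ^ 2 := by
  have h0 : (1 : ℝ) ≤ n := by exact_mod_cast hn
  have h1 := Real.log_le_self (by linarith : (0 : ℝ) ≤ n)
  have h2 := Real.log_nonneg h0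
  unfold Lg
  exact pow_le_pow_left₀ h2 h1 2

/-- the width of the tubes -/
noncomputable def Rn (A : ℝ) (N : ℕ) : ℕ := ⌈A * Lg N / mass (1 / N)⌉₊ + 2

theorem Rn_ge (A : ℝ) {N : ℕ} (hN : 2 ≤ N) : A * Lg N ≤ Rn A N * mass (1 / N) := by
  have hN0 : (0 : ℝ) < N := by exact_mod_cast (by omega : 0 < N)
  have hm : 0 < mass (1 / (N : ℝ)) := mass_pos (by positivity)
  have h1 : A * Lg N / mass (1 / N) ≤ (Rn A N : ℝ) := by
    unfold Rn
    push_cast
    have := Nat.le_ceil (A * Lg N / mass (1 / (N : ℝ)))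
    linarith
  rwa [div_le_iff₀ hm] at h1

theorem Rn_le {A : ℝ} (hA : 0 ≤ A) {N : ℕ} (hN : 2 ≤ N) :
    (Rn A N : ℝ) ≤ A * Lg N / mass (1 / N) + 3 := by
  have hN0 : (0 : ℝ) < N := by exact_mod_cast (by omega : 0 < N)
  have hm : 0 < mass (1 / (N : ℝ)) := mass_pos (by positivity)
  have hLg := Lg_ge hN
  unfold Rn
  push_cast
  have := Nat.ceil_lt_add_one (a := A * Lg N / mass (1 / (N : ℝ))) (by positivity)
  linarith

/-- parameters of the construction -/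
theorem params : ∃ A1 : ℝ, 0 ≤ A1 ∧ ∃ A : ℝ, 3 ≤ A ∧ ∀ N : ℕ, 2 ≤ N →
    ∃ (h k : ℕ) (Q : ℝ), 1 ≤ h ∧ h ≤ 2 * Rn A N ∧ 2 * (2 * Rn A N) < h * k ∧
      h * k ≤ 4 * Rn A N + 1 + h ∧ 1 ≤ Q ∧ q N (-A1) ≤ 1 / Q ^ 8 ∧
      (∀ m ≤ 2 * ((2 * (N / 2)) * k), (c m : ℝ) ≤ mu ^ m * Q) ∧
      ((2 * ((2 * (N / 2)) * k) : ℕ) : ℝ) + 1 ≤ Q ∧
      mu ^ (2 * (N / 2)) * q N (-A1) ≤
        ((fs (Br h 0 (2 * Rn A N)) (2 * (N / 2))).card : ℝ) ∧
      ∀ m ≤ N, mu ^ m * q N (-A1) ≤ ((fs (Tl (Rn A N)) m).card : ℝ) := by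
  obtain ⟨A, hA, hbl⟩ := blocks
  obtain ⟨K, hK, hup, -⟩ := exists_K
  obtain ⟨b, hb⟩ := pow_unbounded_of_one_lt (8 * A + 28) (show (1 : ℝ) < 2 by norm_num)
  obtain ⟨B, hB⟩ : ∃ B : ℝ, B = K * (b + 4) ^ 2 + 3 * (b + 5) := ⟨_, rfl⟩
  have hB0 : 0 ≤ B := by rw [hB]; positivity
  refine ⟨A + 8 * B, by linarith, A, hA, ?_⟩
  intro N hN
  have hN0 : (0 : ℝ) < N := by exact_mod_cast (by omega : 0 < N)
  have hN2 : (2 : ℝ) ≤ N := by exact_mod_cast hN
  have hmu := mu_pos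
  obtain ⟨R, hR⟩ : ∃ R, R = Rn A N := ⟨_, rfl⟩
  rw [← hR]
  have hR2 : 2 ≤ R := by rw [hR]; unfold Rn; omega
  obtain ⟨⟨h, hh1, hh2, hcard⟩, htl⟩ := hbl N hN R hR2 (by rw [hR]; exact Rn_ge A hN)
  obtain ⟨k, hk⟩ : ∃ k, k = (4 * R + 1) / h + 1 := ⟨_, rfl⟩
  have hk1 : 4 * R + 1 < h * k := by
    rw [hk]
    exact Nat.lt_mul_div_succ _ (by omega)
  have hk2 : h * k ≤ 4 * R + 1 + h := by
    rw [hk, mul_add, mul_one]
    have := Nat.mul_div_le (4 * R + 1) h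
    omega
  have hkR : k ≤ 4 * R + 2 := by
    rw [hk]
    have := Nat.div_le_self (4 * R + 1) h
    omega
  have hRle : (R : ℝ) ≤ A * N ^ 3 + 3 := by
    have h1 := Rn_le (by linarith : (0 : ℝ) ≤ A) hN
    rw [← hR] at h1
    have hm : 1 / (N : ℝ) ≤ mass (1 / (N : ℝ)) := self_le_mass (by positivity)
    have hm0 : 0 < mass (1 / (N : ℝ)) := mass_pos (by positivity)
    have h2 : A * Lg N / mass (1 / (N : ℝ)) ≤ A * Lg N * N := by
      rw [div_le_iff₀ hm0]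
      have h3 : 1 ≤ N * mass (1 / (N : ℝ)) := by
        have := mul_le_mul_of_nonneg_left hm hN0.le
        rwa [mul_one_div_cancel hN0.ne'] at this
      have h4 : 0 ≤ A * Lg N := by
        have := Lg_ge hN
        have : 0 ≤ Lg N := by linarith
        positivity
      calc A * Lg N = A * Lg N * 1 := (mul_one _).symm
        _ ≤ A * Lg N * (N * mass (1 / (N : ℝ))) := mul_le_mul_of_nonneg_left h3 h4
        _ = _ := by ring
    have h5 := Lg_le_sq (by omega : 1 ≤ N)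
    have h6 : A * Lg N * N ≤ A * N ^ 3 := by
      have : A * Lg N * N ≤ A * (N : ℝ) ^ 2 * N := by gcongr
      calc A * Lg N * N ≤ A * (N : ℝ) ^ 2 * N := this
        _ = _ := by ring
    linarith
  have hbig : ((2 * ((2 * (N / 2)) * k) : ℕ) : ℝ) ≤ (N : ℝ) ^ (b + 4) := by
    have h1 : 2 * ((2 * (N / 2)) * k) ≤ 2 * (N * (4 * R + 2)) := by
      apply Nat.mul_le_mul_left
      exact Nat.mul_le_mul (by omega) hkR
    have h2 : ((2 * ((2 * (N / 2)) * k) : ℕ) : ℝ) ≤ ((2 * (N * (4 * R + 2)) : ℕ) : ℝ) := by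
      exact_mod_cast h1
    refine h2.trans ?_
    push_cast
    have hN3 : (1 : ℝ) ≤ (N : ℝ) ^ 3 := one_le_pow₀ (by linarith)
    calc 2 * ((N : ℝ) * (4 * R + 2)) ≤ 2 * ((N : ℝ) * (4 * (A * N ^ 3 + 3) + 2)) := by gcongr
      _ = (8 * A * N ^ 3 + 28) * N := by ring
      _ ≤ (8 * A * N ^ 3 + 28 * N ^ 3) * N := by nlinarith
      _ = (8 * A + 28) * N ^ 4 := by ring
      _ ≤ 2 ^ b * N ^ 4 := by gcongr
      _ ≤ N ^ b * N ^ 4 := by gcongr
      _ = _ := by rw [← pow_add]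
  have hQ1 : 1 ≤ q N B := by
    rw [q_eq]
    apply Real.one_le_exp
    have := Lg_ge hN
    have : 0 ≤ Lg N := by linarith
    positivity
  refine ⟨h, k, q N B, hh1, hh2, by omega, hk2, hQ1, ?_, ?_, ?_, ?_, ?_⟩
  · have e1 : q N B ^ 8 = q N (8 * B) := by
      rw [q_eq, q_eq, ← Real.exp_nat_mul]
      congr 1
      push_cast
      ring
    rw [e1]
    have e2 : 1 / q N (8 * B) = q N (-(8 * B)) := by
      rw [q_eq, q_eq, one_div, ← Real.exp_neg]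
      congr 1
      ring
    rw [e2]
    exact q_mono hN (by linarith)
  · intro m hm
    have hn'' : 2 ≤ N ^ (b + 4) := by
      calc 2 ≤ N := hN
        _ ≤ N ^ (b + 4) := Nat.le_self_pow (by omega) N
    have hm' : m ≤ N ^ (b + 4) := by
      have h1 : (m : ℝ) ≤ (N : ℝ) ^ (b + 4) := by
        refine le_trans ?_ hbig
        exact_mod_cast hm
      exact_mod_cast h1
    refine (hup (N ^ (b + 4)) hn'' m hm').trans ?_
    apply mul_le_mul_of_nonneg_left _ (pow_pos hmu m).le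
    unfold q
    apply Real.exp_le_exp.2
    push_cast
    rw [Real.log_pow]
    have hl := log_pos' hN
    have h3 : K * (((b + 4 : ℕ) : ℝ) * Real.log N) ^ 2 = K * (b + 4) ^ 2 * Real.log N ^ 2 := by
      push_cast
      ring
    rw [h3, hB]
    have h4 : 0 ≤ 3 * ((b : ℝ) + 5) * Real.log N ^ 2 := by positivity
    nlinarith
  · have h1 : (N : ℝ) ^ (b + 4) + 1 ≤ (N : ℝ) ^ (b + 5) := by
      have h2 : (1 : ℝ) ≤ (N : ℝ) ^ (b + 4) := one_le_pow₀ (by linarith)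
      calc (N : ℝ) ^ (b + 4) + 1 ≤ (N : ℝ) ^ (b + 4) * 2 := by linarith
        _ ≤ (N : ℝ) ^ (b + 4) * N := by gcongr
        _ = _ := by rw [← pow_succ]
    have h2 := pow_le_q hN (b + 5)
    have h3 : q N (3 * ((b + 5 : ℕ) : ℝ)) ≤ q N B := by
      apply q_mono hN
      rw [hB]
      push_cast
      have : 0 ≤ K * ((b : ℝ) + 4) ^ 2 := by positivity
      linarith
    linarith
  · refine le_trans ?_ hcard
    apply mul_le_mul_of_nonneg_left _ (pow_pos hmu _).le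
    exact q_mono hN (by linarith)
  · intro m hm
    refine le_trans ?_ (htl m hm)
    apply mul_le_mul_of_nonneg_left _ (pow_pos hmu _).le
    exact q_mono hN (by linarith)

/-- probability of a property of words -/
noncomputable def Pr (n : ℕ) (P : List St → Prop) : ℝ := ((fs (fun w => Saw w ∧ P w) n).card : ℝ) / c n

/-- the cost of dividing by `c n` -/
theorem log_split {N n : ℕ} (hN : 2 ≤ N) (hn : N ≤ n) : Lg n ≤ 20 * ((n : ℝ) / N) * Lg N := by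
  have hN0 : (0 : ℝ) < N := by exact_mod_cast (by omega : 0 < N)
  have hn0 : (0 : ℝ) < n := by exact_mod_cast (by omega : 0 < n)
  have hx : (1 : ℝ) ≤ (n : ℝ) / N := by
    rw [le_div_iff₀ hN0, one_mul]
    exact_mod_cast hn
  obtain ⟨x, hxx⟩ : ∃ x, x = (n : ℝ) / N := ⟨_, rfl⟩
  rw [← hxx] at hx ⊢
  have hlog : Real.log n = Real.log x + Real.log N := by
    rw [hxx, Real.log_div hn0.ne' hN0.ne']
    ring
  have hs : Real.log x ≤ 2 * Real.sqrt x := by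
    have h1 : Real.log x = 2 * Real.log (Real.sqrt x) := by
      rw [Real.log_sqrt (by linarith)]
      ring
    have h2 := Real.log_le_self (Real.sqrt_nonneg x)
    linarith
  have hl0 := Real.log_nonneg hx
  have hsq : Real.log x ^ 2 ≤ 4 * x := by
    have h1 : Real.log x ^ 2 ≤ (2 * Real.sqrt x) ^ 2 := pow_le_pow_left₀ hl0 hs 2
    have h2 : Real.sqrt x ^ 2 = x := Real.sq_sqrt (by linarith)
    nlinarith
  have hLg := Lg_ge hN
  have h3 : Lg n ≤ 2 * Real.log x ^ 2 + 2 * Lg N := by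
    unfold Lg
    rw [hlog]
    nlinarith [sq_nonneg (Real.log x - Real.log N)]
  have h4 : 8 * x ≤ 18 * x * Lg N := by nlinarith
  nlinarith

theorem pr_ge {n : ℕ} (hn : 2 ≤ n) {K : ℝ} (hup : ∀ k ≤ n, (c k : ℝ) ≤ mu ^ k * q n K)
    {P : List St → Prop} {S : Finset (List St)} {a : ℝ}
    (hS : ∀ w ∈ S, Saw w ∧ P w ∧ w.length = n) (ha : mu ^ n * a ≤ S.card) (ha0 : 0 ≤ a) :
    a * q n (-K) ≤ Pr n P := by
  have hc := TH795.EP2.c_pos n
  have hmu := mu_pos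
  unfold Pr
  rw [le_div_iff₀ hc]
  have h1 : (S.card : ℝ) ≤ ((fs (fun w => Saw w ∧ P w) n).card : ℝ) := by
    exact_mod_cast Finset.card_le_card (fun w hw => by
      rw [mem_fs]
      obtain ⟨h1, h2, h3⟩ := hS w hw
      exact ⟨⟨h1, h2⟩, h3⟩)
  have h2 := hup n le_rfl
  have h3 : q n (-K) * q n K = 1 := by
    rw [q_mul, neg_add_cancel]
    simp [q]
  calc a * q n (-K) * c n ≤ a * q n (-K) * (mu ^ n * q n K) := by
        have := q_pos n (-K)
        gcongr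
    _ = mu ^ n * a * (q n (-K) * q n K) := by ring
    _ = mu ^ n * a := by rw [h3, mul_one]
    _ ≤ _ := ha.trans h1

theorem one_le_ratio {N n : ℕ} (hN : 2 ≤ N) (hn : N ≤ n) : (1 : ℝ) ≤ (n : ℝ) / N := by
  have hN0 : (0 : ℝ) < N := by exact_mod_cast (by omega : 0 < N)
  rw [le_div_iff₀ hN0, one_mul]
  exact_mod_cast hn

/-- the width is at most a multiple of `(log N)^2` correlation lengths -/
theorem Rn_le' {A : ℝ} (hA : 0 ≤ A) : ∃ C : ℝ, 0 ≤ C ∧ ∀ N : ℕ, 2 ≤ N →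
    (Rn A N : ℝ) ≤ C * (Lg N / mass (1 / N)) := by
  refine ⟨A + 7 * mass 1, by have := mass_pos (e := 1) one_pos; positivity, ?_⟩
  intro N hN
  have hN0 : (0 : ℝ) < N := by exact_mod_cast (by omega : 0 < N)
  have hN1 : (1 : ℝ) ≤ N := by exact_mod_cast (by omega : 1 ≤ N)
  have h1 := Rn_le hA hN
  have hLg := Lg_ge hN
  have hm0 : 0 < mass (1 / (N : ℝ)) := mass_pos (by positivity)
  have hm1 : mass (1 / (N : ℝ)) ≤ mass 1 := mass_mono (by positivity) (by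
    rw [div_le_one hN0]; exact hN1)
  have h2 : 3 ≤ 7 * mass 1 * (Lg N / mass (1 / N)) := by
    rw [mul_div_assoc', le_div_iff₀ hm0]
    nlinarith
  have h3 : A * Lg N / mass (1 / N) = A * (Lg N / mass (1 / N)) := by ring
  rw [h3] at h1
  linarith

/-- exponent of the loss -/
theorem loss {N n J k h j t R : ℕ} {ρ : ℝ} (hN : 2 ≤ N) (hn : N ≤ n) (hh : 1 ≤ h)
    (hh2 : h ≤ 2 * R) (hk : h * k ≤ 4 * R + 1 + h) (hR : 2 ≤ R) (hρ : 1 ≤ ρ)
    (hJ : ρ * R ≤ h * J) (hj : j * ((2 * (N / 2)) * J) ≤ n) (ht : t * (2 * (N / 2)) ≤ n) :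
    ((j * (J + 3 * k + 1) + t + 1 : ℕ) : ℝ) ≤ 50 * ((n : ℝ) / N) := by
  have hN0 : (0 : ℝ) < N := by exact_mod_cast (by omega : 0 < N)
  have hx := one_le_ratio hN hn
  obtain ⟨M, hM⟩ : ∃ M, M = 2 * (N / 2) := ⟨_, rfl⟩
  rw [← hM] at hj ht
  have hMN : N ≤ 2 * M := by omega
  have hMR : (N : ℝ) ≤ 2 * M := by exact_mod_cast hMN
  have hM0 : (0 : ℝ) < M := by linarith
  have hh0 : (0 : ℝ) < h := by exact_mod_cast hh
  have hRR : (2 : ℝ) ≤ R := by exact_mod_cast hR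
  have hkJ : (k : ℝ) ≤ 7 * J := by
    have h1 : (h : ℝ) * k ≤ 4 * R + 1 + h := by exact_mod_cast hk
    have h2 : (h : ℝ) ≤ 2 * R := by exact_mod_cast hh2
    have h3 : (R : ℝ) ≤ h * J := by nlinarith
    have h4 : (h : ℝ) * k ≤ h * (7 * J) := by nlinarith
    exact le_of_mul_le_mul_left h4 hh0
  have hJ1 : (1 : ℝ) ≤ J := by
    have h3 : (R : ℝ) ≤ h * J := by nlinarith
    have h5 : (J : ℝ) ≠ 0 := by
      intro h0
      rw [h0] at h3
      linarith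
    have h6 : J ≠ 0 := by exact_mod_cast h5
    exact_mod_cast Nat.one_le_iff_ne_zero.2 h6
  have hjR : (j : ℝ) * (M * J) ≤ n := by exact_mod_cast hj
  have htR : (t : ℝ) * M ≤ n := by exact_mod_cast ht
  have hjJ : (j : ℝ) * J ≤ 2 * ((n : ℝ) / N) := by
    rw [mul_div_assoc', le_div_iff₀ hN0]
    have h0 : (0 : ℝ) ≤ j * J := by positivity
    nlinarith
  have htt : (t : ℝ) ≤ 2 * ((n : ℝ) / N) := by
    rw [mul_div_assoc', le_div_iff₀ hN0]
    have h0 : (0 : ℝ) ≤ t := by positivity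
    nlinarith
  push_cast
  have h5 : (J : ℝ) + 3 * k + 1 ≤ 23 * J := by linarith
  have hj0 : (0 : ℝ) ≤ j := Nat.cast_nonneg j
  have h6 : (j : ℝ) * (J + 3 * k + 1) ≤ 23 * (j * J) := by nlinarith
  linarith

/-- extent of the snake -/
theorem extent {N n J k h j R : ℕ} {ρ : ℝ} (hN : 2 ≤ N) (hh : 1 ≤ h)
    (hh2 : h ≤ 2 * R) (hk : h * k ≤ 4 * R + 1 + h) (hR : 2 ≤ R) (hρ : 1 ≤ ρ)
    (hρn : ρ ^ 2 = (n : ℝ) / N)
    (hJ : ρ * R ≤ h * J) (hJ2 : (h : ℝ) * J ≤ ρ * R + h) (hj : j * ((2 * (N / 2)) * J) ≤ n) :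
    (h * J : ℝ) + (3 * (h * k) + 2 * R) ≤ 26 * (ρ * R) ∧ (h * k * j : ℝ) + 2 * R ≤ 30 * (ρ * R) := by
  have hN0 : (0 : ℝ) < N := by exact_mod_cast (by omega : 0 < N)
  obtain ⟨M, hM⟩ : ∃ M, M = 2 * (N / 2) := ⟨_, rfl⟩
  rw [← hM] at hj
  have hMN : N ≤ 2 * M := by omega
  have hMR : (N : ℝ) ≤ 2 * M := by exact_mod_cast hMN
  have hh0 : (0 : ℝ) < h := by exact_mod_cast hh
  have hRR : (2 : ℝ) ≤ R := by exact_mod_cast hR
  have h1 : (h : ℝ) * k ≤ 4 * R + 1 + h := by exact_mod_cast hk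
  have h2 : (h : ℝ) ≤ 2 * R := by exact_mod_cast hh2
  have h3 : (h : ℝ) * k ≤ 7 * R := by linarith
  have hρR : (R : ℝ) ≤ ρ * R := by nlinarith
  have hjR : (j : ℝ) * (M * J) ≤ n := by exact_mod_cast hj
  constructor
  · nlinarith
  · have hj0 : (0 : ℝ) ≤ j := Nat.cast_nonneg j
    have h4 : (j : ℝ) * (h * J) * N ≤ 2 * h * n := by
      have g1 : (j : ℝ) * (h * J) * N ≤ (j : ℝ) * (h * J) * (2 * M) := by gcongr
      have g2 : (j : ℝ) * (h * J) * (2 * M) = 2 * h * (j * (M * J)) := by ring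
      have g3 : 2 * h * ((j : ℝ) * (M * J)) ≤ 2 * h * n := by gcongr
      linarith
    have h5 : (j : ℝ) * (ρ * R) * N ≤ 2 * h * n := by
      refine le_trans ?_ h4
      gcongr
    have h6 : (n : ℝ) = ρ ^ 2 * N := by
      rw [hρn]
      field_simp
    rw [h6] at h5
    have h7 : (j : ℝ) * (ρ * R) ≤ 2 * h * ρ ^ 2 := by
      have : (j : ℝ) * (ρ * R) * N ≤ (2 * h * ρ ^ 2) * N := by linarith
      exact le_of_mul_le_mul_right this hN0
    have hρ0 : 0 < ρ := by linarith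
    have h8 : (j : ℝ) * R ≤ 2 * h * ρ := by
      have : ρ * ((j : ℝ) * R) ≤ ρ * (2 * h * ρ) := by nlinarith
      exact le_of_mul_le_mul_left this hρ0
    have h9 : (h : ℝ) * k * j ≤ 7 * (j * R) := by
      calc (h : ℝ) * k * j ≤ (7 * R) * j := by gcongr
        _ = _ := by ring
    have h10 : 2 * (h : ℝ) * ρ ≤ 4 * (ρ * R) := by nlinarith
    linarith

/-- **small balls** -/
theorem ball : ∃ K : ℝ, 0 ≤ K ∧ ∀ N n : ℕ, 2 ≤ N → N ≤ n →
    Real.exp (-(K * ((n : ℝ) / N * Lg N))) ≤ Pr n (fun w => ∀ k ≤ w.length,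
      |((path w k).1 : ℝ)| + |((path w k).2 : ℝ)| ≤
        K * (Real.sqrt ((n : ℝ) / N) * (Lg N / mass (1 / N)))) := by
  obtain ⟨A1, hA1, A, hA, hpar⟩ := params
  obtain ⟨K, hK, hup, -⟩ := exists_K
  obtain ⟨C, hC, hRC⟩ := Rn_le' (by linarith : (0 : ℝ) ≤ A)
  refine ⟨56 * C + 50 * A1 + 20 * K, by positivity, ?_⟩
  intro N n hN hn
  have hn2 : 2 ≤ n := hN.trans hn
  obtain ⟨h, k, Q, hh1, hh2, hk1, hk2, hQ, hQe, hc, hm, hb, htl⟩ := hpar N hN
  have hRC' := hRC N hN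
  have hx := one_le_ratio hN hn
  have hLg := Lg_ge hN
  obtain ⟨R, hR⟩ : ∃ R, R = Rn A N := ⟨_, rfl⟩
  rw [← hR] at hh2 hk1 hk2 hb htl hRC'
  have hR2 : 2 ≤ R := by rw [hR]; unfold Rn; omega
  have hRR : (2 : ℝ) ≤ R := by exact_mod_cast hR2
  have hh0 : (0 : ℝ) < h := by exact_mod_cast hh1
  have he := q_pos N (-A1)
  have hN0 : (0 : ℝ) < N := by exact_mod_cast (by omega : 0 < N)
  have hmass : 0 < mass (1 / (N : ℝ)) := mass_pos (by positivity)
  have he1 : q N (-A1) ≤ 1 := by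
    rw [q_eq]
    apply Real.exp_le_one_iff.2
    nlinarith
  obtain ⟨mU, hmU, hU⟩ := turns hh1 hk1 he hQ hc hm hb
  obtain ⟨ρ, hρ⟩ : ∃ ρ, ρ = Real.sqrt ((n : ℝ) / N) := ⟨_, rfl⟩
  have hρ1 : 1 ≤ ρ := by
    rw [hρ]
    exact Real.one_le_sqrt.2 hx
  have hρ2 : ρ ^ 2 = (n : ℝ) / N := by
    rw [hρ]
    exact Real.sq_sqrt (by linarith)
  obtain ⟨J, hJ⟩ : ∃ J, J = ⌈ρ * R / h⌉₊ := ⟨_, rfl⟩
  have hJ1 : ρ * R ≤ h * J := by
    have h1 := Nat.le_ceil (ρ * R / h)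
    rw [← hJ, div_le_iff₀ hh0] at h1
    linarith
  have hJ2 : (h : ℝ) * J ≤ ρ * R + h := by
    have h1 := Nat.ceil_lt_add_one (a := ρ * R / h) (by positivity)
    rw [← hJ] at h1
    have h2 : (h : ℝ) * J ≤ h * (ρ * R / h + 1) := by
      apply mul_le_mul_of_nonneg_left h1.le hh0.le
    have h3 : (h : ℝ) * (ρ * R / h + 1) = ρ * R + h := by field_simp
    linarith
  have hJpos : 1 ≤ J := by
    rw [hJ]
    exact Nat.one_le_iff_ne_zero.2 (Nat.ceil_pos.2 (by positivity)).ne'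
  obtain ⟨j, t, hj, ht, hcount⟩ := snakes (n := n) hN hh1 hk1 hJpos he he1 hQ hQe hb htl hU hmU
    (B := 3 * (h * k : ℤ) + 2 * R) le_rfl
  have hloss := loss hN hn hh1 hh2 hk2 hR2 hρ1 hJ1 hj ht
  obtain ⟨hex, hey⟩ := extent (n := n) hN hh1 hh2 hk2 hR2 hρ1 hρ2 hJ1 hJ2 hj
  have hfin := pr_ge (n := n) hn2 (hup n hn2) (P := fun w => ∀ k ≤ w.length,
      |((path w k).1 : ℝ)| + |((path w k).2 : ℝ)| ≤ 56 * (ρ * R)) (S := _) (a := _) (by
      intro w hw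
      rw [mem_fs] at hw
      obtain ⟨hw, hwl⟩ := hw
      refine ⟨hw.saw, ?_, hwl⟩
      intro i hi
      have g1 := hw.lo i hi
      have g2 := hw.hi i hi
      have g3 := hw.left i hi
      have g4 := hw.right i hi
      have g1' : -(2 * (R : ℝ)) ≤ ((path w i).2 : ℝ) := by exact_mod_cast g1
      have g2' : ((path w i).2 : ℝ) ≤ h * k * j + 2 * R := by exact_mod_cast g2
      have g3' : -(3 * ((h : ℝ) * k) + 2 * R) ≤ ((path w i).1 : ℝ) := by exact_mod_cast g3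
      have g4' : ((path w i).1 : ℝ) ≤ h * J + (3 * ((h : ℝ) * k) + 2 * R) := by exact_mod_cast g4
      have g5 : (0 : ℝ) ≤ h * J := by positivity
      have g6 : (0 : ℝ) ≤ h * k * j := by positivity
      have g7 : |((path w i).1 : ℝ)| ≤ 26 * (ρ * R) := abs_le.2 ⟨by linarith, by linarith⟩
      have g8 : |((path w i).2 : ℝ)| ≤ 30 * (ρ * R) := abs_le.2 ⟨by linarith, by linarith⟩
      linarith) hcount (by positivity)
  have hmono : Pr n (fun w => ∀ k ≤ w.length,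
      |((path w k).1 : ℝ)| + |((path w k).2 : ℝ)| ≤ 56 * (ρ * R)) ≤
      Pr n (fun w => ∀ k ≤ w.length, |((path w k).1 : ℝ)| + |((path w k).2 : ℝ)| ≤
        (56 * C + 50 * A1 + 20 * K) * (ρ * (Lg N / mass (1 / N)))) := by
    unfold Pr
    apply div_le_div_of_nonneg_right _ (TH795.EP2.c_pos n).le
    exact_mod_cast Finset.card_le_card (fun w hw => by
      rw [mem_fs] at hw ⊢
      refine ⟨⟨hw.1.1, fun i hi => (hw.1.2 i hi).trans ?_⟩, hw.2⟩
      have e0 : 0 ≤ Lg N / mass (1 / (N : ℝ)) := by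
        have : 0 ≤ Lg N := by linarith
        positivity
      have e1 : ρ * R ≤ ρ * (C * (Lg N / mass (1 / N))) :=
        mul_le_mul_of_nonneg_left hRC' (by linarith)
      have e2 : 0 ≤ (50 * A1 + 20 * K) * (ρ * (Lg N / mass (1 / (N : ℝ)))) := by
        have : 0 ≤ ρ := by linarith
        positivity
      nlinarith)
  rw [← hρ]
  refine le_trans ?_ (hfin.trans hmono)
  have e1 : q N (-A1) ^ (j * (J + 3 * k + 1) + t + 1) =
      Real.exp (-(A1 * Lg N * ((j * (J + 3 * k + 1) + t + 1 : ℕ) : ℝ))) := by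
    rw [q_eq, ← Real.exp_nat_mul]
    congr 1
    ring
  rw [e1, q_eq, ← Real.exp_add]
  apply Real.exp_le_exp.2
  have h5 := log_split hN hn
  have h6 : A1 * Lg N * ((j * (J + 3 * k + 1) + t + 1 : ℕ) : ℝ) ≤
      A1 * Lg N * (50 * ((n : ℝ) / N)) := by
    apply mul_le_mul_of_nonneg_left hloss
    have : 0 ≤ Lg N := by linarith
    positivity
  have h7 : K * Lg n ≤ K * (20 * ((n : ℝ) / N) * Lg N) := mul_le_mul_of_nonneg_left h5 hK
  have h8 : 0 ≤ 56 * C * ((n : ℝ) / N * Lg N) := by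
    have : 0 ≤ Lg N := by linarith
    have : 0 ≤ (n : ℝ) / N := by linarith
    positivity
  nlinarith

end Pool.Agent.Helper365.SB
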