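import Pool.Agent.TH795.EP.Cnt

/-!
Self-avoiding words confined to strips and boxes: concatenation, gluing at the first meeting point
with control of the vertices, tubes, turns, snakes.
-/

set_option autoImplicit false

namespace Pool.Agent.Helper365.SB

open H981 Finset Pool.Agent.TH795.EP

/-! ### maps -/

theorem path_ng (w : List St) (k : ℕ) : path (ng w) k = ((path w k).1, -(path w k).2) := by
  unfold path
  have e : (ng w).take k = ng (w.take k) := by unfold ng; rw [List.map_take]
  rw [e, dx_ng, dy_ng]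

theorem path_sg (w : List St) (k : ℕ) : path (sg w) k = (-(path w k).1, (path w k).2) := by
  unfold path
  have e : (sg w).take k = sg (w.take k) := by unfold sg; rw [List.map_take]
  rw [e, dx_sg, dy_sg]

theorem path_sw (w : List St) (k : ℕ) : path (sw w) k = ((path w k).2, (path w k).1) := by
  unfold path
  have e : (sw w).take k = sw (w.take k) := by unfold sw; rw [List.map_take]
  rw [e, dx_sw, dy_sw]

/-! ### concatenation -/

theorem saw_append {u v : List St} (hu : Saw u) (hv : Saw v)
    (h : ∀ i j, i ≤ u.length → 1 ≤ j → j ≤ v.length →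
      ¬ ((path u i).1 = dx u + (path v j).1 ∧ (path u i).2 = dy u + (path v j).2)) :
    Saw (u ++ v) := by
  rw [saw_iff']
  intro k l hkl hl
  rw [List.length_append] at hl
  rcases le_or_gt l u.length with h1 | h1
  · rw [path_append_left (by omega), path_append_left h1]
    exact saw_iff'.1 hu k l hkl h1
  · obtain ⟨l', rfl⟩ : ∃ l', l = u.length + l' := ⟨l - u.length, by omega⟩
    rw [path_append_right]
    rcases le_or_gt u.length k with h2 | h2
    · obtain ⟨k', rfl⟩ : ∃ k', k = u.length + k' := ⟨k - u.length, by omega⟩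
      rw [path_append_right]
      intro he
      simp only [Prod.mk.injEq] at he
      exact saw_iff'.1 hv k' l' (by omega) (by omega) (Prod.ext (by omega) (by omega))
    · rw [path_append_left h2.le]
      intro he
      have e1 := congrArg Prod.fst he
      have e2 := congrArg Prod.snd he
      exact h k l' h2.le (by omega) (by omega) ⟨e1, e2⟩

theorem path_append_cases (u v : List St) {k : ℕ} (hk : k ≤ (u ++ v).length) :
    (k ≤ u.length ∧ path (u ++ v) k = path u k) ∨
    (∃ l, 1 ≤ l ∧ l ≤ v.length ∧ k = u.length + l ∧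
      path (u ++ v) k = (dx u + (path v l).1, dy u + (path v l).2)) := by
  rw [List.length_append] at hk
  rcases le_or_gt k u.length with h | h
  · exact Or.inl ⟨h, path_append_left h⟩
  · obtain ⟨l, rfl⟩ : ∃ l, k = u.length + l := ⟨k - u.length, by omega⟩
    exact Or.inr ⟨l, by omega, by omega, rfl, path_append_right u v l⟩

/-! ### gluing at the first meeting point, with control of the vertices -/

theorem glue_pts {u v : List St} (hu : Saw u) (hv : Saw v) :
    ∃ i j, i ≤ u.length ∧ j ≤ v.length ∧ Saw (u.take i ++ v.drop j) ∧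
      dx (u.take i ++ v.drop j) = dx u + dx v ∧ dy (u.take i ++ v.drop j) = dy u + dy v ∧
      ∀ k, k ≤ (u.take i ++ v.drop j).length →
        (k ≤ i ∧ path (u.take i ++ v.drop j) k = path u k) ∨
        (∃ l, 1 ≤ l ∧ l ≤ v.length ∧
          path (u.take i ++ v.drop j) k = (dx u + (path v l).1, dy u + (path v l).2)) := by
  classical
  have hP : ∃ i, ∃ j, j ≤ v.length ∧ path u i = (dx u + (path v j).1, dy u + (path v j).2) :=
    ⟨u.length, 0, Nat.zero_le _, by rw [path_len, path_zero]; simp⟩
  obtain ⟨j, hj, hij⟩ := Nat.find_spec hP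
  obtain ⟨i, hi⟩ : ∃ i, i = Nat.find hP := ⟨_, rfl⟩
  have hmin : ∀ k, k < i → ∀ l ≤ v.length,
      path u k ≠ (dx u + (path v l).1, dy u + (path v l).2) := by
    intro k hk l hl he
    rw [hi] at hk
    exact Nat.find_min hP hk ⟨l, hl, he⟩
  have hil : i ≤ u.length := by
    rw [hi]
    exact Nat.find_min' hP ⟨0, Nat.zero_le _, by rw [path_len, path_zero]; simp⟩
  rw [← hi] at hij
  have e1 : dx (u.take i) = dx u + dx (v.take j) := congrArg Prod.fst hij
  have e2 : dy (u.take i) = dy u + dy (v.take j) := congrArg Prod.snd hij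
  have f1 : dx v = dx (v.take j) + dx (v.drop j) := by
    rw [← dx_append, List.take_append_drop]
  have f2 : dy v = dy (v.take j) + dy (v.drop j) := by
    rw [← dy_append, List.take_append_drop]
  have hlen : (u.take i).length = i := by rw [List.length_take]; omega
  have g2 : ∀ l', path (u.take i ++ v.drop j) (i + l') =
      (dx u + (path v (j + l')).1, dy u + (path v (j + l')).2) := by
    intro l'
    have := path_append_right (u.take i) (v.drop j) l'
    rw [hlen] at this
    rw [this, path_drop, e1, e2]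
    unfold path
    simp only [Prod.mk.injEq]
    constructor <;> ring
  refine ⟨i, j, hil, hj, ?_, by rw [dx_append]; omega, by rw [dy_append]; omega, ?_⟩
  · rw [saw_iff']
    intro k l hkl hl
    have hl' : l ≤ i + (v.length - j) := by
      rw [List.length_append, hlen, List.length_drop] at hl
      exact hl
    rcases le_or_gt l i with h1 | h1
    · rw [path_append_left (by omega), path_append_left (by omega), path_take (by omega),
        path_take h1]
      exact saw_iff'.1 hu k l hkl (by omega)
    · obtain ⟨l', rfl⟩ : ∃ l', l = i + l' := ⟨l - i, by omega⟩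
      rcases le_or_gt i k with h2 | h2
      · obtain ⟨k', rfl⟩ : ∃ k', k = i + k' := ⟨k - i, by omega⟩
        rw [g2, g2]
        intro he
        simp only [Prod.mk.injEq] at he
        exact saw_iff'.1 hv (j + k') (j + l') (by omega) (by omega)
          (Prod.ext (by omega) (by omega))
      · rw [g2, path_append_left (by omega), path_take h2.le]
        exact hmin k h2 (j + l') (by omega)
  · intro k hk
    rw [List.length_append, hlen, List.length_drop] at hk
    rcases le_or_gt k i with h1 | h1
    · left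
      refine ⟨h1, ?_⟩
      rw [path_append_left (by omega), path_take h1]
    · right
      obtain ⟨l', rfl⟩ : ∃ l', k = i + l' := ⟨k - i, by omega⟩
      exact ⟨j + l', by omega, by omega, g2 l'⟩

/-- counting glued words -/
theorem glue_card_pts {P Q R : List St → Prop} (m1 m2 : ℕ)
    (hP : ∀ u, P u → Saw u) (hQ : ∀ v, Q v → Saw v)
    (h : ∀ u v w, P u → Q v → Saw w → dx w = dx u + dx v → dy w = dy u + dy v →
      (∀ k, k ≤ w.length → (k ≤ u.length ∧ path w k = path u k) ∨
        (∃ l, 1 ≤ l ∧ l ≤ v.length ∧ path w k = (dx u + (path v l).1, dy u + (path v l).2))) →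
      R w) :
    (fs P m1).card * (fs Q m2).card ≤ ∑ p ∈ range (m1 + 1) ×ˢ range (m2 + 1),
      (fs R (p.1 + (m2 - p.2))).card * (c (m1 - p.1) * c p.2) := by
  classical
  unfold c
  rw [← Finset.card_product]
  have e : ∀ p : ℕ × ℕ, (fs R (p.1 + (m2 - p.2))).card *
      ((fs Saw (m1 - p.1)).card * (fs Saw p.2).card) =
      (fs R (p.1 + (m2 - p.2)) ×ˢ (fs Saw (m1 - p.1) ×ˢ fs Saw p.2)).card := by
    intro p
    rw [Finset.card_product, Finset.card_product]
  simp only [e]
  rw [← Finset.card_sigma]
  apply card_le_of_decode (fun q => (q.2.1.take q.1.1 ++ q.2.2.1, q.2.2.2 ++ q.2.1.drop q.1.1))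
  rintro ⟨u, v⟩ huv
  rw [Finset.mem_product, mem_fs, mem_fs] at huv
  obtain ⟨⟨hu, hul⟩, hv, hvl⟩ := huv
  simp only at hu hul hv hvl
  obtain ⟨i, j, hi, hj, h1, h2, h3, h4⟩ := glue_pts (hP u hu) (hQ v hv)
  have hlen : (u.take i).length = i := by rw [List.length_take]; omega
  refine ⟨⟨(i, j), (u.take i ++ v.drop j, u.drop i, v.take j)⟩, ?_, ?_⟩
  · rw [Finset.mem_sigma, Finset.mem_product, Finset.mem_product, Finset.mem_product,
      mem_fs, mem_fs, mem_fs, Finset.mem_range, Finset.mem_range]
    simp only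
    refine ⟨⟨by omega, by omega⟩, ⟨h u v _ hu hv h1 h2 h3 ?_, ?_⟩, ⟨?_, ?_⟩, ?_, ?_⟩
    · intro k hk
      rcases h4 k hk with ⟨h5, h6⟩ | h5
      · exact Or.inl ⟨by omega, h6⟩
      · exact Or.inr h5
    · rw [List.length_append, hlen, List.length_drop, hvl]
    · exact (hP u hu).subw (List.drop_suffix _ _).isInfix
    · rw [List.length_drop, hul]
    · exact (hQ v hv).subw (List.take_prefix _ _).isInfix
    · rw [List.length_take]; omega
  · simp only [Prod.mk.injEq]
    have g1 : (u.take i ++ v.drop j).take i = u.take i := by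
      have := List.take_left (l₁ := u.take i) (l₂ := v.drop j)
      rwa [hlen] at this
    have g2 : (u.take i ++ v.drop j).drop i = v.drop j := by
      have := List.drop_left (l₁ := u.take i) (l₂ := v.drop j)
      rwa [hlen] at this
    rw [g1, g2]
    exact ⟨List.take_append_drop _ _, List.take_append_drop _ _⟩

/-! ### tubes -/

/-- words from the left to the right side of a tube: after the start the first coordinate is
positive, it is largest at the end, the second coordinate stays in `[-T, T]` -/
structure Br (h v T : ℤ) (w : List St) : Prop where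
  saw : Saw w
  ex : dx w = h
  ey : dy w = v
  pos : ∀ k, 1 ≤ k → k ≤ w.length → 0 < (path w k).1
  le : ∀ k, k ≤ w.length → (path w k).1 ≤ h
  lo : ∀ k, k ≤ w.length → -T ≤ (path w k).2
  hi : ∀ k, k ≤ w.length → (path w k).2 ≤ T

theorem Br.nonneg {h v T : ℤ} {w : List St} (b : Br h v T w) : 0 ≤ h := by
  have := b.le 0 (Nat.zero_le _)
  rw [path_zero] at this
  exact this

theorem Br.T_nonneg {h v T : ℤ} {w : List St} (b : Br h v T w) : 0 ≤ T := by
  have := b.hi 0 (Nat.zero_le _)
  rw [path_zero] at this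
  exact this

theorem Br.x_nonneg {h v T : ℤ} {w : List St} (b : Br h v T w) {k : ℕ} (hk : k ≤ w.length) :
    0 ≤ (path w k).1 := by
  rcases Nat.eq_zero_or_pos k with h0 | h0
  · rw [h0, path_zero]
  · exact (b.pos k h0 hk).le

theorem Br.ng {h v T : ℤ} {w : List St} (b : Br h v T w) : Br h (-v) T (ng w) := by
  refine ⟨b.saw.ng, by rw [dx_ng, b.ex], by rw [dy_ng, b.ey], ?_, ?_, ?_, ?_⟩
  · intro k h1 h2
    rw [length_ng] at h2
    rw [path_ng]
    exact b.pos k h1 h2
  · intro k h2
    rw [length_ng] at h2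
    rw [path_ng]
    exact b.le k h2
  · intro k h2
    rw [length_ng] at h2
    rw [path_ng]
    have := b.hi k h2
    simp only
    omega
  · intro k h2
    rw [length_ng] at h2
    rw [path_ng]
    have := b.lo k h2
    simp only
    omega

theorem Br.append {h v T h' v' T' S : ℤ} {u w : List St} (a : Br h v T u) (b : Br h' v' T' w)
    (hS : T ≤ S) (hS1 : v + T' ≤ S) (hS2 : T' - v ≤ S) : Br (h + h') (v + v') S (u ++ w) := by
  have hb := b.nonneg
  have ha := a.nonneg
  refine ⟨?_, by rw [dx_append, a.ex, b.ex], by rw [dy_append, a.ey, b.ey], ?_, ?_, ?_, ?_⟩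
  · apply saw_append a.saw b.saw
    rintro i j hi h1 hj ⟨h2, -⟩
    have h3 := a.le i hi
    have h4 := b.pos j h1 hj
    rw [a.ex] at h2
    omega
  · intro k h1 hk
    rcases path_append_cases u w hk with ⟨h2, h3⟩ | ⟨l, hl1, hl2, -, h3⟩
    · rw [h3]; exact a.pos k h1 h2
    · rw [h3, a.ex]
      have := b.pos l hl1 hl2
      simp only
      omega
  · intro k hk
    rcases path_append_cases u w hk with ⟨h2, h3⟩ | ⟨l, hl1, hl2, -, h3⟩
    · rw [h3]
      have := a.le k h2
      omega
    · rw [h3, a.ex]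
      have := b.le l hl2
      simp only
      omega
  · intro k hk
    rcases path_append_cases u w hk with ⟨h2, h3⟩ | ⟨l, hl1, hl2, -, h3⟩
    · rw [h3]
      have := a.lo k h2
      omega
    · rw [h3, a.ey]
      have := b.lo l hl2
      simp only
      omega
  · intro k hk
    rcases path_append_cases u w hk with ⟨h2, h3⟩ | ⟨l, hl1, hl2, -, h3⟩
    · rw [h3]
      have := a.hi k h2
      omega
    · rw [h3, a.ey]
      have := b.hi l hl2
      simp only
      omega

theorem Br_nil {T : ℤ} (hT : 0 ≤ T) : Br 0 0 T [] := by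
  refine ⟨saw_nil, rfl, rfl, ?_, ?_, ?_, ?_⟩
  · intro k h1 h2
    simp only [List.length_nil] at h2
    omega
  · intro k h2
    simp only [List.length_nil] at h2
    have : k = 0 := by omega
    rw [this, path_zero]
  · intro k h2
    simp only [List.length_nil] at h2
    have : k = 0 := by omega
    rw [this, path_zero]
    simp only
    omega
  · intro k h2
    simp only [List.length_nil] at h2
    have : k = 0 := by omega
    rw [this, path_zero]
    exact hT

/-- counting of concatenations with a map applied to the second word -/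
theorem card_append_map {P Q R : List St → Prop} {f : List St → List St} (m1 m2 : ℕ)
    (hf : Function.Injective f) (hl : ∀ w, (f w).length = w.length)
    (h : ∀ u v, P u → Q v → R (u ++ f v)) :
    (fs P m1).card * (fs Q m2).card ≤ (fs R (m1 + m2)).card := by
  classical
  rw [← Finset.card_product]
  apply Finset.card_le_card_of_injOn (fun p => p.1 ++ f p.2)
  · rintro ⟨u, v⟩ huv
    rw [Finset.mem_coe, Finset.mem_product, mem_fs, mem_fs] at huv
    obtain ⟨⟨hu, hul⟩, hv, hvl⟩ := huv
    simp only at hu hul hv hvl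
    rw [Finset.mem_coe, mem_fs]
    exact ⟨h u v hu hv, by rw [List.length_append, hl, hul, hvl]⟩
  · rintro ⟨u, v⟩ huv ⟨u', v'⟩ huv' he
    rw [Finset.mem_coe, Finset.mem_product, mem_fs, mem_fs] at huv huv'
    obtain ⟨⟨hu, hul⟩, hv, hvl⟩ := huv
    obtain ⟨⟨hu', hul'⟩, hv', hvl'⟩ := huv'
    simp only at hul hul' he
    obtain ⟨e1, e2⟩ := List.append_inj he (by rw [hul, hul'])
    rw [e1, hf e2]

theorem Br_card_ng (h v T : ℤ) (hv : |v| ≤ T) (m : ℕ) :
    (fs (Br h v T) m).card * (fs (Br h v T) m).card ≤ (fs (Br (2 * h) 0 (2 * T)) (m + m)).card := by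
  apply card_append_map m m ng_injective length_ng
  intro u w hu hw
  have h1 := hu.append hw.ng (S := 2 * T) (by have := hu.T_nonneg; omega)
    (by have := abs_le.1 hv; omega) (by have := abs_le.1 hv; omega)
  have e1 : h + h = 2 * h := by ring
  have e2 : v + -v = 0 := by ring
  rwa [e1, e2] at h1

theorem Br_card_pow (h T : ℤ) (hT : 0 ≤ T) (m J : ℕ) :
    (fs (Br h 0 T) m).card ^ J ≤ (fs (Br (h * J) 0 T) (m * J)).card := by
  induction J with
  | zero =>
    rw [pow_zero]
    apply Finset.one_le_card.2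
    refine ⟨[], ?_⟩
    rw [mem_fs]
    refine ⟨?_, by simp⟩
    have := Br_nil hT
    simpa using this
  | succ J ih =>
    rw [pow_succ]
    have h1 := card_append_map (P := Br (h * J) 0 T) (Q := Br h 0 T) (R := Br (h * (J + 1 : ℕ)) 0 T)
      (f := id) (m * J) m Function.injective_id (fun _ => rfl) (by
        intro u v hu hv
        have h2 := hu.append hv (S := T) le_rfl (by omega) (by omega)
        have e1 : h * J + h = h * ((J + 1 : ℕ) : ℤ) := by push_cast; ring
        have e2 : (0 : ℤ) + 0 = 0 := by ring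
        rw [e1, e2] at h2
        exact h2)
    rw [show m * (J + 1) = m * J + m by ring]
    exact (Nat.mul_le_mul_right _ ih).trans h1

/-! ### turns -/

/-- one turn: from the left side of a box to its top -/
structure T1 (X T : ℤ) (w : List St) : Prop where
  saw : Saw w
  ex : dx w = X
  ey : dy w = X
  pos : ∀ k, 1 ≤ k → k ≤ w.length → 0 < (path w k).1
  right : ∀ k, k ≤ w.length → (path w k).1 ≤ X + T
  lo : ∀ k, k ≤ w.length → -T ≤ (path w k).2
  hi : ∀ k, k ≤ w.length → (path w k).2 ≤ X

/-- a turn by 180 degrees: from the left side of a box back to its left side -/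
structure UT (X T : ℤ) (w : List St) : Prop where
  saw : Saw w
  ex : dx w = 0
  ey : dy w = X
  nn : ∀ k, k ≤ w.length → 0 ≤ (path w k).1
  far : ∀ k, 1 ≤ k → k ≤ w.length → (path w k).1 = 0 → X - T ≤ (path w k).2
  right : ∀ k, k ≤ w.length → (path w k).1 ≤ X + T
  lo : ∀ k, k ≤ w.length → -T ≤ (path w k).2
  hi : ∀ k, k ≤ w.length → (path w k).2 ≤ X + T

theorem card_map {P Q : List St → Prop} {f : List St → List St} (m : ℕ)
    (hf : Function.Injective f) (hl : ∀ w, (f w).length = w.length)
    (h : ∀ u, P u → Q (f u)) : (fs P m).card ≤ (fs Q m).card := by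
  classical
  apply Finset.card_le_card_of_injOn f
  · intro u hu
    rw [Finset.mem_coe, mem_fs] at hu ⊢
    exact ⟨h u hu.1, by rw [hl, hu.2]⟩
  · intro u _ v _ he
    exact hf he

/-- the image of the tube under the exchange of the coordinates -/
def Up (X T : ℤ) (w : List St) : Prop := ∃ v, Br X 0 T v ∧ w = sw v

/-- the image of the tube under the horizontal flip -/
def Lf (X T : ℤ) (w : List St) : Prop := ∃ v, Br X 0 T v ∧ w = sg v

theorem sw_injective : Function.Injective sw := fun a b h => by
  have := congrArg sw h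
  rwa [sw_sw, sw_sw] at this

theorem T1_card (X T : ℤ) (hT : T < X) (m1 m2 : ℕ) :
    (fs (Br X 0 T) m1).card * (fs (Br X 0 T) m2).card ≤
      ∑ p ∈ range (m1 + 1) ×ˢ range (m2 + 1),
        (fs (T1 X T) (p.1 + (m2 - p.2))).card * (c (m1 - p.1) * c p.2) := by
  have h0 : (fs (Br X 0 T) m2).card ≤ (fs (Up X T) m2).card :=
    card_map m2 sw_injective length_sw (fun u hu => ⟨u, hu, rfl⟩)
  refine (Nat.mul_le_mul_left _ h0).trans ?_
  apply glue_card_pts m1 m2 (fun u hu => hu.saw) (fun v hv => by
    obtain ⟨w, hw, rfl⟩ := hv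
    exact saw_sw hw.saw)
  rintro u v w hu ⟨v, hv, rfl⟩ hw ex ey hpt
  have hT0 := hu.T_nonneg
  rw [dx_sw, hu.ex, hv.ey, add_zero] at ex
  rw [dy_sw, hu.ey, hv.ex, zero_add] at ey
  refine ⟨hw, ex, ey, ?_, ?_, ?_, ?_⟩
  · intro k h1 hk
    rcases hpt k hk with ⟨h2, h3⟩ | ⟨l, hl1, hl2, h3⟩
    · rw [h3]; exact hu.pos k h1 h2
    · rw [length_sw] at hl2
      rw [h3, hu.ex, path_sw]
      have := hv.lo l hl2
      simp only
      omega
  · intro k hk
    rcases hpt k hk with ⟨h2, h3⟩ | ⟨l, hl1, hl2, h3⟩
    · rw [h3]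
      have := hu.le k h2
      omega
    · rw [length_sw] at hl2
      rw [h3, hu.ex, path_sw]
      have := hv.hi l hl2
      simp only
      omega
  · intro k hk
    rcases hpt k hk with ⟨h2, h3⟩ | ⟨l, hl1, hl2, h3⟩
    · rw [h3]; exact hu.lo k h2
    · rw [length_sw] at hl2
      rw [h3, hu.ey, path_sw]
      have := hv.x_nonneg hl2
      simp only
      omega
  · intro k hk
    rcases hpt k hk with ⟨h2, h3⟩ | ⟨l, hl1, hl2, h3⟩
    · rw [h3]
      have := hu.hi k h2
      omega
    · rw [length_sw] at hl2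
      rw [h3, hu.ey, path_sw]
      have := hv.le l hl2
      simp only
      omega

theorem UT_card (X T : ℤ) (m1 m2 : ℕ) :
    (fs (T1 X T) m1).card * (fs (Br X 0 T) m2).card ≤
      ∑ p ∈ range (m1 + 1) ×ˢ range (m2 + 1),
        (fs (UT X T) (p.1 + (m2 - p.2))).card * (c (m1 - p.1) * c p.2) := by
  have h0 : (fs (Br X 0 T) m2).card ≤ (fs (Lf X T) m2).card :=
    card_map m2 sg_injective length_sg (fun u hu => ⟨u, hu, rfl⟩)
  refine (Nat.mul_le_mul_left _ h0).trans ?_
  apply glue_card_pts m1 m2 (fun u hu => hu.saw) (fun v hv => by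
    obtain ⟨w, hw, rfl⟩ := hv
    exact hw.saw.sg)
  rintro u v w hu ⟨v, hv, rfl⟩ hw ex ey hpt
  have hT0 := hv.T_nonneg
  have hX0 := hv.nonneg
  rw [dx_sg, hu.ex, hv.ex] at ex
  rw [dy_sg, hu.ey, hv.ey, add_zero] at ey
  refine ⟨hw, by omega, ey, ?_, ?_, ?_, ?_, ?_⟩
  · intro k hk
    rcases hpt k hk with ⟨h2, h3⟩ | ⟨l, hl1, hl2, h3⟩
    · rw [h3]
      rcases Nat.eq_zero_or_pos k with h0 | h0
      · rw [h0, path_zero]
      · exact (hu.pos k h0 h2).le
    · rw [length_sg] at hl2
      rw [h3, hu.ex, path_sg]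
      have := hv.le l hl2
      simp only
      omega
  · intro k h1 hk hx
    rcases hpt k hk with ⟨h2, h3⟩ | ⟨l, hl1, hl2, h3⟩
    · rw [h3] at hx
      have := hu.pos k h1 h2
      omega
    · rw [length_sg] at hl2
      rw [h3, hu.ey, path_sg]
      have := hv.lo l hl2
      simp only
      omega
  · intro k hk
    rcases hpt k hk with ⟨h2, h3⟩ | ⟨l, hl1, hl2, h3⟩
    · rw [h3]; exact hu.right k h2
    · rw [length_sg] at hl2
      rw [h3, hu.ex, path_sg]
      have := hv.x_nonneg hl2
      simp only
      omega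
  · intro k hk
    rcases hpt k hk with ⟨h2, h3⟩ | ⟨l, hl1, hl2, h3⟩
    · rw [h3]; exact hu.lo k h2
    · rw [length_sg] at hl2
      rw [h3, hu.ey, path_sg]
      have := hv.lo l hl2
      simp only
      omega
  · intro k hk
    rcases hpt k hk with ⟨h2, h3⟩ | ⟨l, hl1, hl2, h3⟩
    · rw [h3]
      have := hu.hi k h2
      omega
    · rw [length_sg] at hl2
      rw [h3, hu.ey, path_sg]
      have := hv.hi l hl2
      simp only
      omega

/-! ### one period of the snake -/

/-- a row of length `L` followed by a turn by 180 degrees of height `X` -/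
structure Zp (L X T : ℤ) (w : List St) : Prop where
  saw : Saw w
  ex : dx w = L
  ey : dy w = X
  pos : ∀ k, 1 ≤ k → k ≤ w.length → 0 < (path w k).1
  far : ∀ k, k ≤ w.length → X - T ≤ (path w k).2 → L ≤ (path w k).1
  right : ∀ k, k ≤ w.length → (path w k).1 ≤ L + X + T
  lo : ∀ k, k ≤ w.length → -T ≤ (path w k).2
  hi : ∀ k, k ≤ w.length → (path w k).2 ≤ X + T

theorem Zp_card (L X T : ℤ) (hL : 1 ≤ L) (hT : 2 * T < X) (m1 m2 : ℕ) :
    (fs (Br L 0 T) m1).card * (fs (UT X T) m2).card ≤ (fs (Zp L X T) (m1 + m2)).card := by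
  apply card_append_map (f := id) m1 m2 Function.injective_id (fun _ => rfl)
  intro u v hu hv
  simp only [id]
  have hT0 := hu.T_nonneg
  refine ⟨?_, ?_, ?_, ?_, ?_, ?_, ?_, ?_⟩
  · apply saw_append hu.saw hv.saw
    rintro i j hi h1 hj ⟨h2, h3⟩
    rw [hu.ex] at h2
    rw [hu.ey] at h3
    have h4 := hu.le i hi
    have h5 := hv.nn j hj
    have h6 := hv.far j h1 hj (by omega)
    have h7 := hu.hi i hi
    omega
  · rw [dx_append, hu.ex, hv.ex, add_zero]
  · rw [dy_append, hu.ey, hv.ey, zero_add]
  · intro k h1 hk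
    rcases path_append_cases u v hk with ⟨h2, h3⟩ | ⟨l, hl1, hl2, -, h3⟩
    · rw [h3]; exact hu.pos k h1 h2
    · rw [h3, hu.ex]
      have := hv.nn l hl2
      simp only
      omega
  · intro k hk hy
    rcases path_append_cases u v hk with ⟨h2, h3⟩ | ⟨l, hl1, hl2, -, h3⟩
    · rw [h3] at hy
      have := hu.hi k h2
      omega
    · rw [h3, hu.ex]
      have := hv.nn l hl2
      simp only
      omega
  · intro k hk
    rcases path_append_cases u v hk with ⟨h2, h3⟩ | ⟨l, hl1, hl2, -, h3⟩
    · rw [h3]
      have := hu.le k h2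
      omega
    · rw [h3, hu.ex]
      have := hv.right l hl2
      simp only
      omega
  · intro k hk
    rcases path_append_cases u v hk with ⟨h2, h3⟩ | ⟨l, hl1, hl2, -, h3⟩
    · rw [h3]; exact hu.lo k h2
    · rw [h3, hu.ey]
      have := hv.lo l hl2
      simp only
      omega
  · intro k hk
    rcases path_append_cases u v hk with ⟨h2, h3⟩ | ⟨l, hl1, hl2, -, h3⟩
    · rw [h3]
      have := hu.hi k h2
      omega
    · rw [h3, hu.ey]
      have := hv.hi l hl2
      simp only
      omega

/-! ### snakes -/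

/-- the snake with rows of length `L` and total height `H` -/
structure Sn (L B H T : ℤ) (w : List St) : Prop where
  saw : Saw w
  pos : ∀ k, 1 ≤ k → k ≤ w.length → (path w k).2 ≤ T → 0 < (path w k).1
  lo : ∀ k, k ≤ w.length → -T ≤ (path w k).2
  hi : ∀ k, k ≤ w.length → (path w k).2 ≤ H
  left : ∀ k, k ≤ w.length → -B ≤ (path w k).1
  right : ∀ k, k ≤ w.length → (path w k).1 ≤ L + B

theorem Sn_step (L X B H T : ℤ) (hL : 1 ≤ L) (hT : 2 * T < X) (hB : X + T ≤ B)
    (hH : T ≤ H) (m1 m2 : ℕ) :
    (fs (Zp L X T) m1).card * (fs (Sn L B H T) m2).card ≤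
      (fs (Sn L B (X + H) T) (m1 + m2)).card := by
  apply card_append_map (f := sg) m1 m2 sg_injective length_sg
  intro u v hu hv
  have hT0 : 0 ≤ T := by
    have := hu.lo 0 (Nat.zero_le _)
    rw [path_zero] at this
    simp only at this
    omega
  refine ⟨?_, ?_, ?_, ?_, ?_, ?_⟩
  · apply saw_append hu.saw hv.saw.sg
    rintro i j hi h1 hj ⟨h2, h3⟩
    rw [length_sg] at hj
    rw [hu.ex, path_sg] at h2
    rw [hu.ey, path_sg] at h3
    simp only at h2 h3
    have h4 := hv.lo j hj
    have h5 := hu.far i hi (by omega)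
    have h6 := hu.hi i hi
    have h7 := hv.pos j h1 hj (by omega)
    omega
  · intro k h1 hk hy
    rcases path_append_cases u (sg v) hk with ⟨h2, h3⟩ | ⟨l, hl1, hl2, -, h3⟩
    · rw [h3]; exact hu.pos k h1 h2
    · rw [length_sg] at hl2
      rw [h3, hu.ey, path_sg] at hy
      have := hv.lo l hl2
      simp only at hy
      omega
  · intro k hk
    rcases path_append_cases u (sg v) hk with ⟨h2, h3⟩ | ⟨l, hl1, hl2, -, h3⟩
    · rw [h3]; exact hu.lo k h2
    · rw [length_sg] at hl2
      rw [h3, hu.ey, path_sg]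
      have := hv.lo l hl2
      simp only
      omega
  · intro k hk
    rcases path_append_cases u (sg v) hk with ⟨h2, h3⟩ | ⟨l, hl1, hl2, -, h3⟩
    · rw [h3]
      have := hu.hi k h2
      omega
    · rw [length_sg] at hl2
      rw [h3, hu.ey, path_sg]
      have := hv.hi l hl2
      simp only
      omega
  · intro k hk
    rcases path_append_cases u (sg v) hk with ⟨h2, h3⟩ | ⟨l, hl1, hl2, -, h3⟩
    · rw [h3]
      rcases Nat.eq_zero_or_pos k with h0 | h0
      · rw [h0, path_zero]
        simp only
        omega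
      · have := hu.pos k h0 h2
        omega
    · rw [length_sg] at hl2
      rw [h3, hu.ex, path_sg]
      have := hv.right l hl2
      simp only
      omega
  · intro k hk
    rcases path_append_cases u (sg v) hk with ⟨h2, h3⟩ | ⟨l, hl1, hl2, -, h3⟩
    · rw [h3]
      have := hu.right k h2
      omega
    · rw [length_sg] at hl2
      rw [h3, hu.ex, path_sg]
      have := hv.left l hl2
      simp only
      omega

theorem Sn_pow (L X B T : ℤ) (hL : 1 ≤ L) (hT : 2 * T < X) (hX : 0 ≤ X) (hB : X + T ≤ B)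
    (m m0 j : ℕ) :
    (fs (Zp L X T) m).card ^ j * (fs (Sn L B T T) m0).card ≤
      (fs (Sn L B (X * j + T) T) (m * j + m0)).card := by
  induction j with
  | zero => simp
  | succ j ih =>
    have h1 := Sn_step L X B (X * j + T) T hL hT hB (by nlinarith) m (m * j + m0)
    have e1 : X + (X * (j : ℤ) + T) = X * ((j + 1 : ℕ) : ℤ) + T := by push_cast; ring
    have e2 : m + (m * j + m0) = m * (j + 1) + m0 := by ring
    rw [e1, e2] at h1
    refine le_trans ?_ h1
    rw [pow_succ', mul_assoc]
    exact Nat.mul_le_mul_left _ ih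

/-- the last piece -/
structure Tl (r : ℤ) (w : List St) : Prop where
  saw : Saw w
  pos : ∀ k, 1 ≤ k → k ≤ w.length → 0 < (path w k).1
  le : ∀ k, k ≤ w.length → (path w k).1 ≤ r
  lo : ∀ k, k ≤ w.length → -r ≤ (path w k).2
  hi : ∀ k, k ≤ w.length → (path w k).2 ≤ r

/-- the last part of the snake: a row and a last piece -/
theorem Sn_base (L B T y r : ℤ) (m0 m1 : ℕ) (hrT : r ≤ T) (hx : y + r ≤ L + B) (hB : 0 ≤ B) :
    (fs (Br y 0 T) m0).card * (fs (Tl r) m1).card ≤ (fs (Sn L B T T) (m0 + m1)).card := by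
  apply card_append_map (f := id) m0 m1 Function.injective_id (fun _ => rfl)
  intro u v hu hv
  simp only [id]
  have hy := hu.nonneg
  have hr : 0 ≤ r := by
    have := hv.le 0 (Nat.zero_le _)
    rw [path_zero] at this
    exact this
  have hxv : ∀ l, l ≤ v.length → 0 ≤ (path v l).1 := by
    intro l hl
    rcases Nat.eq_zero_or_pos l with h0 | h0
    · rw [h0, path_zero]
    · exact (hv.pos l h0 hl).le
  refine ⟨?_, ?_, ?_, ?_, ?_, ?_⟩
  · apply saw_append hu.saw hv.saw
    rintro i j hi h1 hj ⟨h2, -⟩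
    have h3 := hu.le i hi
    have h4 := hv.pos j h1 hj
    rw [hu.ex] at h2
    omega
  · intro k h1 hk _
    rcases path_append_cases u v hk with ⟨h2, h3⟩ | ⟨l, hl1, hl2, -, h3⟩
    · rw [h3]; exact hu.pos k h1 h2
    · rw [h3, hu.ex]
      have := hv.pos l hl1 hl2
      simp only
      omega
  · intro k hk
    rcases path_append_cases u v hk with ⟨h2, h3⟩ | ⟨l, hl1, hl2, -, h3⟩
    · rw [h3]; exact hu.lo k h2
    · rw [h3, hu.ey]
      have := hv.lo l hl2
      simp only
      omega
  · intro k hk
    rcases path_append_cases u v hk with ⟨h2, h3⟩ | ⟨l, hl1, hl2, -, h3⟩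
    · rw [h3]; exact hu.hi k h2
    · rw [h3, hu.ey]
      have := hv.hi l hl2
      simp only
      omega
  · intro k hk
    rcases path_append_cases u v hk with ⟨h2, h3⟩ | ⟨l, hl1, hl2, -, h3⟩
    · rw [h3]
      have := hu.x_nonneg h2
      omega
    · rw [h3, hu.ex]
      have := hxv l hl2
      simp only
      omega
  · intro k hk
    rcases path_append_cases u v hk with ⟨h2, h3⟩ | ⟨l, hl1, hl2, -, h3⟩
    · rw [h3]
      have := hu.le k h2
      omega
    · rw [h3, hu.ex]
      have := hv.le l hl2
      simp only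
      omega

/-- straight tube with a last piece: words in a strip -/
theorem strip_base (T y r : ℤ) (m0 m1 : ℕ) (hrT : r ≤ T) :
    (fs (Br y 0 T) m0).card * (fs (Tl r) m1).card ≤
      (fs (fun w => Saw w ∧ ∀ k, k ≤ w.length → -T ≤ (path w k).2 ∧ (path w k).2 ≤ T)
        (m0 + m1)).card := by
  apply card_append_map (f := id) m0 m1 Function.injective_id (fun _ => rfl)
  intro u v hu hv
  simp only [id]
  refine ⟨?_, ?_⟩
  · apply saw_append hu.saw hv.saw
    rintro i j hi h1 hj ⟨h2, -⟩
    have h3 := hu.le i hi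
    have h4 := hv.pos j h1 hj
    rw [hu.ex] at h2
    omega
  · intro k hk
    rcases path_append_cases u v hk with ⟨h2, h3⟩ | ⟨l, hl1, hl2, -, h3⟩
    · rw [h3]; exact ⟨hu.lo k h2, hu.hi k h2⟩
    · rw [h3, hu.ey]
      have := hv.lo l hl2
      have := hv.hi l hl2
      simp only
      omega

end Pool.Agent.Helper365.SB
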