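import Pool.Agent.Helper365.SB.Fin

/-!
Self-avoiding words in a strip: lower and upper bounds.
-/

set_option autoImplicit false

namespace Pool.Agent.Helper365.SB

open H981 Finset Pool.Agent.TH795.EP Pool.Agent.TH795.EP2 Pool.Agent.Y981.L2

set_option maxHeartbeats 2000000 in
/-- **strips, lower bound** -/
theorem strip_lower : ∃ K : ℝ, 0 ≤ K ∧ ∀ N n : ℕ, 2 ≤ N → N ≤ n →
    Real.exp (-(K * ((n : ℝ) / N * Lg N))) ≤ Pr n (fun w => ∀ k ≤ w.length,
      |((path w k).2 : ℝ)| ≤ K * (Lg N / mass (1 / N))) := by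
  obtain ⟨A1, hA1, A, hA, hpar⟩ := params
  obtain ⟨K, hK, hup, -⟩ := exists_K
  obtain ⟨C, hC, hRC⟩ := Rn_le' (by linarith : (0 : ℝ) ≤ A)
  refine ⟨2 * C + 3 * A1 + 20 * K, by positivity, ?_⟩
  intro N n hN hn
  have hn2 : 2 ≤ n := hN.trans hn
  obtain ⟨h, k, Q, hh1, hh2, hk1, hk2, hQ, hQe, hc, hm, hb, htl⟩ := hpar N hN
  have hRC' := hRC N hN
  have hx := one_le_ratio hN hn
  have hLg := Lg_ge hN
  obtain ⟨R, hR⟩ : ∃ R, R = Rn A N := ⟨_, rfl⟩
  rw [← hR] at hh2 hk1 hk2 hb htl hRC'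
  have hR2 : 2 ≤ R := by rw [hR]; unfold Rn; omega
  have he := q_pos N (-A1)
  have hN0 : (0 : ℝ) < N := by exact_mod_cast (by omega : 0 < N)
  have hmass : 0 < mass (1 / (N : ℝ)) := mass_pos (by positivity)
  have hmu := mu_pos
  obtain ⟨M, hM⟩ : ∃ M, M = 2 * (N / 2) := ⟨_, rfl⟩
  rw [← hM] at hb
  have hM1 : 1 ≤ M := by omega
  have hMN : M ≤ N := by omega
  obtain ⟨t, ht⟩ : ∃ t, t = n / M := ⟨_, rfl⟩
  obtain ⟨s, hs⟩ : ∃ s, s = n % M := ⟨_, rfl⟩
  have hdiv : M * t + s = n := by rw [ht, hs]; exact Nat.div_add_mod n M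
  have hslt : s < M := by rw [hs]; exact Nat.mod_lt _ hM1
  have hT : (0 : ℤ) ≤ 2 * R := by omega
  have hrow : mu ^ (M * t) * q N (-A1) ^ t ≤
      ((fs (Br (h * t) 0 (2 * R)) (M * t)).card : ℝ) := by
    have h1 := Br_card_pow h (2 * R) hT M t
    have h2 : ((fs (Br h 0 (2 * R)) M).card : ℝ) ^ t ≤
        ((fs (Br (h * t) 0 (2 * R)) (M * t)).card : ℝ) := by exact_mod_cast h1
    refine le_trans ?_ h2
    rw [pow_mul, ← mul_pow]
    exact pow_le_pow_left₀ (mul_pos (pow_pos hmu _) he).le hb t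
  have htail := htl s (by omega)
  have hcount : mu ^ n * q N (-A1) ^ (t + 1) ≤
      ((fs (fun w => Saw w ∧ ∀ k, k ≤ w.length → -(2 * (R : ℤ)) ≤ (path w k).2 ∧
        (path w k).2 ≤ 2 * R) n).card : ℝ) := by
    have h1 := strip_base (2 * R) (h * t) R (M * t) s (by omega)
    rw [hdiv] at h1
    have h2 : ((fs (Br (h * t) 0 (2 * R)) (M * t)).card : ℝ) * ((fs (Tl R) s).card : ℝ) ≤
        ((fs (fun w => Saw w ∧ ∀ k, k ≤ w.length → -(2 * (R : ℤ)) ≤ (path w k).2 ∧
          (path w k).2 ≤ 2 * R) n).card : ℝ) := by exact_mod_cast h1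
    refine le_trans ?_ h2
    have g1 : 0 < mu ^ (M * t) * q N (-A1) ^ t := mul_pos (pow_pos hmu _) (pow_pos he _)
    have g2 : 0 < mu ^ s * q N (-A1) := mul_pos (pow_pos hmu _) he
    calc mu ^ n * q N (-A1) ^ (t + 1) =
          (mu ^ (M * t) * q N (-A1) ^ t) * (mu ^ s * q N (-A1)) := by
          rw [← hdiv, pow_add, pow_add, pow_one]; ring
      _ ≤ _ := mul_le_mul hrow htail g2.le (g1.le.trans hrow)
  have hfin := pr_ge (n := n) hn2 (hup n hn2) (P := fun w => ∀ k ≤ w.length,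
      |((path w k).2 : ℝ)| ≤ 2 * R) (S := _) (a := _) (by
      intro w hw
      rw [mem_fs] at hw
      obtain ⟨⟨hw, hwp⟩, hwl⟩ := hw
      refine ⟨hw, ?_, hwl⟩
      intro i hi
      obtain ⟨g1, g2⟩ := hwp i hi
      have g1' : -(2 * (R : ℝ)) ≤ ((path w i).2 : ℝ) := by exact_mod_cast g1
      have g2' : ((path w i).2 : ℝ) ≤ 2 * R := by exact_mod_cast g2
      exact abs_le.2 ⟨by linarith, by linarith⟩) hcount (by positivity)
  have hmono : Pr n (fun w => ∀ k ≤ w.length, |((path w k).2 : ℝ)| ≤ 2 * R) ≤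
      Pr n (fun w => ∀ k ≤ w.length, |((path w k).2 : ℝ)| ≤
        (2 * C + 3 * A1 + 20 * K) * (Lg N / mass (1 / N))) := by
    unfold Pr
    apply div_le_div_of_nonneg_right _ (TH795.EP2.c_pos n).le
    refine Nat.cast_le.2 (Finset.card_le_card (fun w hw => ?_))
    rw [mem_fs] at hw ⊢
    refine ⟨⟨hw.1.1, fun i hi => (hw.1.2 i hi).trans ?_⟩, hw.2⟩
    have e0 : 0 ≤ Lg N / mass (1 / (N : ℝ)) := by
      have : 0 ≤ Lg N := by linarith
      positivity
    have e2 : 0 ≤ (3 * A1 + 20 * K) * (Lg N / mass (1 / (N : ℝ))) := by positivity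
    nlinarith
  refine le_trans ?_ (hfin.trans hmono)
  have e1 : q N (-A1) ^ (t + 1) = Real.exp (-(A1 * Lg N * ((t : ℝ) + 1))) := by
    rw [q_eq, ← Real.exp_nat_mul]
    congr 1
    push_cast
    ring
  rw [e1, q_eq, ← Real.exp_add]
  apply Real.exp_le_exp.2
  have h5 := log_split hN hn
  have htt : (t : ℝ) ≤ 2 * ((n : ℝ) / N) := by
    have hMR : (N : ℝ) ≤ 2 * M := by exact_mod_cast (by omega : N ≤ 2 * M)
    have h7 : (t : ℝ) * M ≤ n := by
      have : t * M ≤ n := by rw [mul_comm]; omega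
      exact_mod_cast this
    rw [mul_div_assoc', le_div_iff₀ hN0]
    have h0 : (0 : ℝ) ≤ t := by positivity
    nlinarith
  have h6 : A1 * Lg N * ((t : ℝ) + 1) ≤ A1 * Lg N * (3 * ((n : ℝ) / N)) := by
    apply mul_le_mul_of_nonneg_left (by linarith)
    have : 0 ≤ Lg N := by linarith
    positivity
  have h7 : K * Lg n ≤ K * (20 * ((n : ℝ) / N) * Lg N) := mul_le_mul_of_nonneg_left h5 hK
  have h8 : 0 ≤ 2 * C * ((n : ℝ) / N * Lg N) := by
    have : 0 ≤ Lg N := by linarith
    have : 0 ≤ (n : ℝ) / N := by linarith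
    positivity
  nlinarith

/-! ### upper bound -/

/-- self-avoiding words of vertical extent at most `W` -/
def Th (W : ℕ) (w : List St) : Prop := Saw w ∧ ∃ a : ℤ, ∀ k ≤ w.length,
  a ≤ (path w k).2 ∧ (path w k).2 ≤ a + W

theorem Th.take {W : ℕ} {w : List St} (h : Th W w) (i : ℕ) : Th W (w.take i) := by
  obtain ⟨hS, a, ha⟩ := h
  refine ⟨hS.subw (List.take_prefix _ _).isInfix, a, ?_⟩
  intro k hk
  rw [List.length_take] at hk
  rw [path_take (by omega)]
  exact ha k (by omega)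

theorem Th.drop {W : ℕ} {w : List St} (h : Th W w) (i : ℕ) : Th W (w.drop i) := by
  obtain ⟨hS, a, ha⟩ := h
  rcases le_or_gt w.length i with h1 | h1
  · rw [List.drop_eq_nil_of_le h1]
    refine ⟨saw_nil, 0, ?_⟩
    intro k hk
    have : k = 0 := by simpa using hk
    rw [this, path_zero]
    simp
  refine ⟨hS.subw (List.drop_suffix _ _).isInfix, a - (path w i).2, ?_⟩
  intro k hk
  rw [List.length_drop] at hk
  have h2 := path_drop w i k
  have h3 := ha (i + k) (by omega)
  rw [h2] at h3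
  simp only at h3
  omega

/-- a long thin word is wide -/
theorem Th.wide {W : ℕ} {w : List St} (h : Th W w) {r : ℝ}
    (hr : (r + 1) * (W + 1) ≤ w.length) : Wide r w := by
  classical
  obtain ⟨hS, a, ha⟩ := h
  by_contra hcon
  -- extremal first coordinates
  obtain ⟨i, hi, himin⟩ := Finset.exists_min_image (range (w.length + 1)) (fun k => (path w k).1)
    ⟨0, by simp⟩
  obtain ⟨j, hj, hjmax⟩ := Finset.exists_max_image (range (w.length + 1)) (fun k => (path w k).1)
    ⟨0, by simp⟩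
  rw [Finset.mem_range] at hi hj
  have hdist : (((path w j).1 - (path w i).1 : ℤ) : ℝ) < r := by
    by_contra hc
    push Not at hc
    apply hcon
    have hln : ∀ x y : ℤ, r ≤ (x : ℝ) → r ≤ ln2 (x, y) := by
      intro x y hx
      unfold ln2
      refine hx.trans (le_trans (le_abs_self _) ?_)
      apply Real.abs_le_sqrt
      nlinarith [sq_nonneg (y : ℝ)]
    have hln' : ∀ x y : ℤ, r ≤ ((-x : ℤ) : ℝ) → r ≤ ln2 (x, y) := by
      intro x y hx
      unfold ln2
      refine hx.trans (le_trans (le_abs_self _) ?_)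
      apply Real.abs_le_sqrt
      push_cast
      nlinarith [sq_nonneg (y : ℝ)]
    rcases Nat.le_total i j with h1 | h1
    · exact ⟨i, j, h1, by omega, hln _ _ (by exact_mod_cast hc)⟩
    · refine ⟨j, i, h1, by omega, hln' _ _ ?_⟩
      have : (-((path w i).1 - (path w j).1) : ℤ) = (path w j).1 - (path w i).1 := by ring
      rw [this]
      exact_mod_cast hc
  -- count the vertices
  have hinj : Set.InjOn (fun k => path w k) (range (w.length + 1) : Finset ℕ) := by
    intro k hk l hl hkl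
    rw [Finset.mem_coe, Finset.mem_range] at hk hl
    by_contra hne
    rcases Nat.lt_or_gt_of_ne hne with h1 | h1
    · exact saw_iff'.1 hS k l h1 (by omega) hkl
    · exact saw_iff'.1 hS l k h1 (by omega) hkl.symm
  have hcard : (range (w.length + 1)).card ≤
      ((Icc (path w i).1 (path w j).1) ×ˢ (Icc a (a + W))).card := by
    apply Finset.card_le_card_of_injOn (fun k => path w k) _ hinj
    intro k hk
    rw [Finset.mem_coe] at hk
    have h1 := himin k hk
    have h2 := hjmax k hk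
    rw [Finset.mem_range] at hk
    have h3 := ha k (by omega)
    rw [Finset.mem_coe, Finset.mem_product, Finset.mem_Icc, Finset.mem_Icc]
    exact ⟨⟨h1, h2⟩, h3⟩
  rw [Finset.card_range, Finset.card_product, Int.card_Icc, Int.card_Icc] at hcard
  have e1 : (a + (W : ℤ) + 1 - a).toNat = W + 1 := by omega
  rw [e1] at hcard
  have h0 : (path w i).1 ≤ (path w j).1 := himin j (by rw [Finset.mem_range]; exact hj)
  have e2 : ((((path w j).1 + 1 - (path w i).1).toNat : ℕ) : ℝ) < r + 1 := by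
    have g1 : ((((path w j).1 + 1 - (path w i).1).toNat : ℕ) : ℤ) =
        (path w j).1 + 1 - (path w i).1 := Int.toNat_of_nonneg (by omega)
    have g2 : ((((path w j).1 + 1 - (path w i).1).toNat : ℕ) : ℝ) =
        (((path w j).1 + 1 - (path w i).1 : ℤ) : ℝ) := by
      rw [← g1]
      norm_cast
    rw [g2]
    push_cast at hdist ⊢
    linarith
  have hcR : ((w.length : ℝ) + 1) ≤
      ((((path w j).1 + 1 - (path w i).1).toNat : ℕ) : ℝ) * (W + 1) := by exact_mod_cast hcard
  have hW : (0 : ℝ) < (W : ℝ) + 1 := by positivity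
  nlinarith

theorem Th_mul (W : ℕ) {N m : ℕ} {r : ℝ} (hr : (r + 1) * (W + 1) ≤ N) :
    (fs (Th W) (N + m)).card ≤
      (fs (fun w => Saw w ∧ Wide r w) N).card * (fs (Th W) m).card := by
  classical
  rw [← Finset.card_product]
  apply Finset.card_le_card_of_injOn (fun w => (w.take N, w.drop N))
  · intro w hw
    rw [Finset.mem_coe, mem_fs] at hw
    rw [Finset.mem_coe, Finset.mem_product, mem_fs, mem_fs]
    have hl : (w.take N).length = N := by rw [List.length_take]; omega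
    refine ⟨⟨⟨(hw.1.take N).1, (hw.1.take N).wide ?_⟩, hl⟩, hw.1.drop N, ?_⟩
    · rw [hl]; exact hr
    · rw [List.length_drop]; omega
  · intro w _ v _ he
    simp only [Prod.mk.injEq] at he
    rw [← List.take_append_drop N w, ← List.take_append_drop N v, he.1, he.2]

theorem Th_pow (W : ℕ) {N s : ℕ} {r : ℝ} (hr : (r + 1) * (W + 1) ≤ N) (t : ℕ) :
    (fs (Th W) (N * t + s)).card ≤
      (fs (fun w => Saw w ∧ Wide r w) N).card ^ t * c s := by
  induction t with
  | zero =>
    rw [pow_zero, one_mul, mul_zero, zero_add]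
    unfold c
    apply Finset.card_le_card
    intro w hw
    rw [mem_fs] at hw ⊢
    exact ⟨hw.1.1, hw.2⟩
  | succ t ih =>
    have h1 := Th_mul W (m := N * t + s) hr
    rw [show N * (t + 1) + s = N + (N * t + s) by ring]
    refine h1.trans ?_
    rw [pow_succ', mul_assoc]
    exact Nat.mul_le_mul_left _ ih

set_option maxHeartbeats 2000000 in
/-- **strips, upper bound** -/
theorem strip_upper : ∃ K : ℝ, 1 ≤ K ∧ ∀ N n W : ℕ, 2 ≤ N → N ≤ n →
    K * ((W + 1) * Lg N) ≤ N * mass (1 / N) →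
    Pr n (fun w => ∀ k ≤ w.length, 2 * |((path w k).2 : ℝ)| ≤ W) ≤
      Real.exp (-((n : ℝ) * mass (1 / N) / (K * (W + 1)))) := by
  classical
  obtain ⟨K1, hK1, h1⟩ := dfar_le
  obtain ⟨K2, hK2, h2⟩ := Pool.Agent.Y981.L2X.far_upper
  obtain ⟨K3, hK3, hup, -⟩ := exists_K
  obtain ⟨M1, hM1⟩ : ∃ M1, M1 = mass 1 := ⟨_, rfl⟩
  have hM10 : 0 < M1 := by rw [hM1]; exact mass_pos one_pos
  obtain ⟨K4, hK4⟩ : ∃ K4, K4 = K1 + K2 + K3 := ⟨_, rfl⟩
  have hK40 : 0 ≤ K4 := by rw [hK4]; positivity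
  refine ⟨64 * (K4 + K3 + M1 + 1), by nlinarith, ?_⟩
  intro N n W hN hn hW
  obtain ⟨K, hK⟩ : ∃ K, K = 64 * (K4 + K3 + M1 + 1) := ⟨_, rfl⟩
  rw [← hK] at hW ⊢
  have hKpos : 64 ≤ K := by rw [hK]; linarith
  have hN0 : (0 : ℝ) < N := by exact_mod_cast (by omega : 0 < N)
  have hN1 : (1 : ℝ) ≤ N := by exact_mod_cast (by omega : 1 ≤ N)
  have hn0 : (0 : ℝ) < n := by exact_mod_cast (by omega : 0 < n)
  have hmu := mu_pos
  have hLg := Lg_ge hN
  obtain ⟨m, hm⟩ : ∃ m, m = mass (1 / (N : ℝ)) := ⟨_, rfl⟩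
  rw [← hm] at hW ⊢
  have hm0 : 0 < m := by rw [hm]; exact mass_pos (by positivity)
  have hmM : m ≤ M1 := by
    rw [hm, hM1]
    exact mass_mono (by positivity) (by rw [div_le_one hN0]; exact hN1)
  have hW0 : (0 : ℝ) < (W : ℝ) + 1 := by positivity
  -- the radius
  obtain ⟨r, hr⟩ : ∃ r : ℝ, r = N / (W + 1) - 1 := ⟨_, rfl⟩
  have hr1 : (r + 1) * (W + 1) = N := by rw [hr]; field_simp; ring
  have hbig : K * Lg N ≤ (N / (W + 1)) * m := by
    rw [div_mul_eq_mul_div, le_div_iff₀ hW0]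
    linarith
  have hNW : 2 ≤ (N : ℝ) / (W + 1) := by
    have h3 : 2 * M1 ≤ (N / (W + 1)) * M1 := by
      have g1 : (N / ((W : ℝ) + 1)) * m ≤ (N / (W + 1)) * M1 := by gcongr
      have g2 : 2 * M1 ≤ K * Lg N := by
        rw [hK]
        nlinarith
      linarith
    exact le_of_mul_le_mul_right h3 hM10
  have hr2 : N / ((W : ℝ) + 1) ≤ 2 * r := by rw [hr]; linarith
  have hr0 : 0 ≤ r := by rw [hr]; linarith
  -- one piece
  have hcN := TH795.EP2.c_pos N
  have hpiece : ((fs (fun w => Saw w ∧ Wide r w) N).card : ℝ) ≤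
      mu ^ N * Real.exp (-(r * m / 8)) := by
    have e1 : ((fs (fun w => Saw w ∧ Wide r w) N).card : ℝ) = dfar N r * c N := by
      unfold dfar
      rw [div_mul_cancel₀ _ hcN.ne']
    rw [e1]
    have e2 := h1 N hN r
    have e3 := h2 N hN r hr0
    have e4 := hup N hN N le_rfl
    have e5 : 0 ≤ far N r := by unfold far; positivity
    have e6 := q_pos N K1
    rw [← hm] at e3
    have e3' : far N r ≤ Real.exp (K2 * Lg N - r * m / 4) := e3
    calc dfar N r * c N ≤ (q N K1 * far N r) * c N := mul_le_mul_of_nonneg_right e2 hcN.le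
      _ ≤ (q N K1 * Real.exp (K2 * Lg N - r * m / 4)) * (mu ^ N * q N K3) := by gcongr
      _ = mu ^ N * Real.exp (K4 * Lg N - r * m / 4) := by
          rw [q_eq, q_eq, hK4]
          rw [show (K1 + K2 + K3) * Lg N - r * m / 4 =
            K1 * Lg N + (K2 * Lg N - r * m / 4) + K3 * Lg N by ring,
            Real.exp_add, Real.exp_add]
          ring
      _ ≤ _ := by
          apply mul_le_mul_of_nonneg_left _ (pow_pos hmu N).le
          apply Real.exp_le_exp.2
          have g1 : K * Lg N ≤ 2 * (r * m) := by nlinarith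
          have g2 : 16 * (K4 * Lg N) ≤ K * Lg N := by
            rw [hK]
            nlinarith
          linarith
  -- all pieces
  obtain ⟨t, ht⟩ : ∃ t, t = n / N := ⟨_, rfl⟩
  obtain ⟨s, hs⟩ : ∃ s, s = n % N := ⟨_, rfl⟩
  have hdiv : N * t + s = n := by rw [ht, hs]; exact Nat.div_add_mod n N
  have hslt : s < N := by rw [hs]; exact Nat.mod_lt _ (by omega)
  have ht1 : 1 ≤ t := by
    rw [ht]
    exact (Nat.one_le_div_iff (by omega)).2 hn
  have htn : (n : ℝ) ≤ 2 * (N * t) := by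
    have : n ≤ 2 * (N * t) := by
      have : N ≤ N * t := Nat.le_mul_of_pos_right N ht1
      omega
    exact_mod_cast this
  have hall := Th_pow W (N := N) (s := s) (r := r) hr1.le t
  rw [hdiv] at hall
  have hallR : ((fs (Th W) n).card : ℝ) ≤
      ((fs (fun w => Saw w ∧ Wide r w) N).card : ℝ) ^ t * c s := by exact_mod_cast hall
  have hcn := TH795.EP2.c_pos n
  unfold Pr
  rw [div_le_iff₀ hcn]
  have hsub : ((fs (fun w => Saw w ∧ ∀ k ≤ w.length, 2 * |((path w k).2 : ℝ)| ≤ W) n).card : ℝ) ≤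
      ((fs (Th W) n).card : ℝ) := by
    refine Nat.cast_le.2 (Finset.card_le_card (fun w hw => ?_))
    rw [mem_fs] at hw ⊢
    obtain ⟨⟨h3, h4⟩, h5⟩ := hw
    refine ⟨⟨h3, -((W / 2 : ℕ) : ℤ), ?_⟩, h5⟩
    intro k hk
    have h6 : 2 * |((path w k).2 : ℝ)| ≤ W := h4 k hk
    have h7 : 2 * |(path w k).2| ≤ (W : ℤ) := by
      have : ((2 * |(path w k).2| : ℤ) : ℝ) ≤ ((W : ℤ) : ℝ) := by
        push_cast
        exact h6
      exact_mod_cast this
    have h8 := neg_abs_le (path w k).2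
    have h9 := le_abs_self (path w k).2
    omega
  refine hsub.trans (hallR.trans ?_)
  have hs3 := hup N hN s hslt.le
  have hmn : mu ^ n ≤ c n := by
    rw [TH795.EP.c_eq]
    exact mu_pow_le n
  have hcs := TH795.EP2.c_pos s
  calc ((fs (fun w => Saw w ∧ Wide r w) N).card : ℝ) ^ t * c s
      ≤ (mu ^ N * Real.exp (-(r * m / 8))) ^ t * (mu ^ s * q N K3) := by gcongr
    _ = mu ^ n * Real.exp (-(t * (r * m / 8)) + K3 * Lg N) := by
        rw [mul_pow, ← pow_mul, ← Real.exp_nat_mul, q_eq,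
          show mu ^ (N * t) * Real.exp (↑t * -(r * m / 8)) * (mu ^ s * Real.exp (K3 * Lg N)) =
            (mu ^ (N * t) * mu ^ s) * (Real.exp (↑t * -(r * m / 8)) * Real.exp (K3 * Lg N)) by ring,
          ← pow_add, hdiv, ← Real.exp_add]
        congr 3
        ring
    _ ≤ mu ^ n * Real.exp (-((n : ℝ) * m / (K * (W + 1)))) := by
        apply mul_le_mul_of_nonneg_left _ (pow_pos hmu n).le
        apply Real.exp_le_exp.2
        have htR : (1 : ℝ) ≤ t := by exact_mod_cast ht1
        have g1 : K * Lg N ≤ 2 * (r * m) := by nlinarith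
        have g2 : 64 * (K3 * Lg N) ≤ K * Lg N := by
          rw [hK]
          nlinarith
        have hrm : 0 ≤ r * m := by positivity
        have g3 : K3 * Lg N ≤ t * (r * m / 16) := by nlinarith
        have g4 : (n : ℝ) * m / (K * (W + 1)) ≤ t * (r * m / 16) := by
          rw [div_le_iff₀ (by positivity)]
          have g5 : (n : ℝ) ≤ 4 * (t * (r * (W + 1))) := by
            have g6 : (N : ℝ) ≤ 2 * (r * (W + 1)) := by
              have := mul_le_mul_of_nonneg_right hr2 hW0.le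
              rw [div_mul_cancel₀ _ hW0.ne'] at this
              linarith
            have g7 : (t : ℝ) * N ≤ t * (2 * (r * (W + 1))) := by gcongr
            linarith
          have g8 : (n : ℝ) * m ≤ 4 * (t * (r * (W + 1))) * m := by gcongr
          have g9 : 0 ≤ (t : ℝ) * (r * (W + 1)) * m := by positivity
          have g10 : t * (r * m / 16) * (K * (W + 1)) = (t : ℝ) * (r * (W + 1)) * m * (K / 16) := by
            ring
          rw [g10]
          nlinarith
        linarith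
    _ ≤ _ := by
        rw [mul_comm]
        exact mul_le_mul_of_nonneg_left hmn (Real.exp_pos _).le

end Pool.Agent.Helper365.SB
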