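import Pool.Agent.Helper365.SB.Cnt

/-!
The number of turns, of periods of the snake, and of snakes.
-/

set_option autoImplicit false

namespace Pool.Agent.Helper365.SB

open H981 Finset Pool.Agent.TH795.EP Pool.Agent.TH795.EP2 Pool.Agent.Y981.L2

/-- loss in one gluing -/
theorem glue_num {f : ℕ → ℕ} {m1 m2 a b : ℕ} {Q w1 w2 : ℝ} (hQ : 1 ≤ Q) (hw1 : 0 < w1)
    (hw2 : 0 < w2) (h1 : mu ^ m1 * w1 ≤ a) (h2 : mu ^ m2 * w2 ≤ b)
    (hc1 : ∀ k ≤ m1, (c k : ℝ) ≤ mu ^ k * Q) (hc2 : ∀ k ≤ m2, (c k : ℝ) ≤ mu ^ k * Q)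
    (hm1 : (m1 : ℝ) + 1 ≤ Q) (hm2 : (m2 : ℝ) + 1 ≤ Q)
    (h : a * b ≤ ∑ p ∈ range (m1 + 1) ×ˢ range (m2 + 1), f (p.1 + (m2 - p.2)) *
      (c (m1 - p.1) * c p.2)) :
    ∃ m ≤ m1 + m2, mu ^ m * (w1 * w2 / Q ^ 4) ≤ f m := by
  by_contra hcon
  push Not at hcon
  have hmu := mu_pos
  have hQ0 : 0 < Q := by linarith
  have hR : (a : ℝ) * b ≤ ∑ p ∈ range (m1 + 1) ×ˢ range (m2 + 1), (f (p.1 + (m2 - p.2)) : ℝ) *
      (c (m1 - p.1) * c p.2) := by exact_mod_cast h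
  have hlow : mu ^ (m1 + m2) * (w1 * w2) ≤ (a : ℝ) * b := by
    rw [pow_add, show mu ^ m1 * mu ^ m2 * (w1 * w2) = (mu ^ m1 * w1) * (mu ^ m2 * w2) by ring]
    have g1 : 0 < mu ^ m1 * w1 := mul_pos (pow_pos hmu _) hw1
    have g2 : 0 < mu ^ m2 * w2 := mul_pos (pow_pos hmu _) hw2
    exact mul_le_mul h1 h2 g2.le (g1.le.trans h1)
  have hterm : ∀ p ∈ range (m1 + 1) ×ˢ range (m2 + 1), (f (p.1 + (m2 - p.2)) : ℝ) *
      (c (m1 - p.1) * c p.2) < mu ^ (m1 + m2) * (w1 * w2) / Q ^ 2 := by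
    rintro ⟨i, j⟩ hp
    rw [Finset.mem_product, Finset.mem_range, Finset.mem_range] at hp
    obtain ⟨hi, hj⟩ := hp
    simp only at hi hj ⊢
    have g1 := hcon (i + (m2 - j)) (by omega)
    have g2 := hc1 (m1 - i) (by omega)
    have g3 := hc2 j (by omega)
    have g4 : (0 : ℝ) < c (m1 - i) * c j := mul_pos (TH795.EP2.c_pos _) (TH795.EP2.c_pos _)
    calc (f (i + (m2 - j)) : ℝ) * (c (m1 - i) * c j)
        < (mu ^ (i + (m2 - j)) * (w1 * w2 / Q ^ 4)) * (c (m1 - i) * c j) :=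
          mul_lt_mul_of_pos_right g1 g4
      _ ≤ (mu ^ (i + (m2 - j)) * (w1 * w2 / Q ^ 4)) * ((mu ^ (m1 - i) * Q) * (mu ^ j * Q)) := by
          gcongr
      _ = (mu ^ (i + (m2 - j)) * mu ^ (m1 - i) * mu ^ j) * (w1 * w2) / Q ^ 2 := by
          field_simp
      _ = _ := by
          rw [← pow_add, ← pow_add]
          congr 3
          omega
  have hsum : ∑ p ∈ range (m1 + 1) ×ˢ range (m2 + 1), (f (p.1 + (m2 - p.2)) : ℝ) *
      (c (m1 - p.1) * c p.2) < ∑ _p ∈ range (m1 + 1) ×ˢ range (m2 + 1),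
        mu ^ (m1 + m2) * (w1 * w2) / Q ^ 2 := by
    apply Finset.sum_lt_sum_of_nonempty
    · exact ⟨(0, 0), by simp⟩
    · exact hterm
  rw [Finset.sum_const, nsmul_eq_mul, Finset.card_product, Finset.card_range,
    Finset.card_range] at hsum
  have hW : 0 < mu ^ (m1 + m2) * (w1 * w2) := mul_pos (pow_pos hmu _) (mul_pos hw1 hw2)
  have h5 : (((m1 + 1) * (m2 + 1) : ℕ) : ℝ) * (mu ^ (m1 + m2) * (w1 * w2) / Q ^ 2) ≤
      mu ^ (m1 + m2) * (w1 * w2) := by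
    push_cast
    have g1 : ((m1 : ℝ) + 1) * (m2 + 1) ≤ Q * Q := mul_le_mul hm1 hm2 (by positivity) hQ0.le
    calc ((m1 : ℝ) + 1) * (m2 + 1) * (mu ^ (m1 + m2) * (w1 * w2) / Q ^ 2)
        ≤ (Q * Q) * (mu ^ (m1 + m2) * (w1 * w2) / Q ^ 2) := by gcongr
      _ = _ := by field_simp
  linarith

/-- **turns**: lower bound for the number of turns of some length -/
theorem turns {N R h k : ℕ} {e Q : ℝ} (hh : 1 ≤ h) (hk : 2 * (2 * R) < h * k)
    (he : 0 < e) (hQ : 1 ≤ Q)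
    (hc : ∀ m ≤ 2 * ((2 * (N / 2)) * k), (c m : ℝ) ≤ mu ^ m * Q)
    (hm : ((2 * ((2 * (N / 2)) * k) : ℕ) : ℝ) + 1 ≤ Q)
    (hb : mu ^ (2 * (N / 2)) * e ≤ ((fs (Br h 0 (2 * R)) (2 * (N / 2))).card : ℝ)) :
    ∃ m ≤ 3 * ((2 * (N / 2)) * k),
      mu ^ m * (e ^ (3 * k) / Q ^ 8) ≤ ((fs (UT (h * k) (2 * R)) m).card : ℝ) := by
  obtain ⟨M, hM⟩ : ∃ M, M = 2 * (N / 2) := ⟨_, rfl⟩
  rw [← hM] at hc hm hb ⊢
  have hmu := mu_pos
  have hQ0 : 0 < Q := by linarith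
  have hT : (0 : ℤ) ≤ 2 * R := by omega
  have hrow : mu ^ (M * k) * e ^ k ≤ ((fs (Br (h * k) 0 (2 * R)) (M * k)).card : ℝ) := by
    have h1 := Br_card_pow h (2 * R) hT M k
    have h2 : ((fs (Br h 0 (2 * R)) M).card : ℝ) ^ k ≤
        ((fs (Br (h * k) 0 (2 * R)) (M * k)).card : ℝ) := by exact_mod_cast h1
    refine le_trans ?_ h2
    rw [pow_mul, ← mul_pow]
    exact pow_le_pow_left₀ (mul_pos (pow_pos hmu _) he).le hb k
  have hkT : ((2 * R : ℕ) : ℤ) < (h : ℤ) * k := by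
    have : 2 * R < h * k := by omega
    exact_mod_cast this
  have hkT' : (2 * (R : ℤ)) < (h : ℤ) * k := by
    have : ((2 * R : ℕ) : ℤ) = 2 * (R : ℤ) := by push_cast; ring
    omega
  have hmk : ((M * k : ℕ) : ℝ) + 1 ≤ Q := by
    have : ((M * k : ℕ) : ℝ) ≤ ((2 * (M * k) : ℕ) : ℝ) := by
      exact_mod_cast (by omega : M * k ≤ 2 * (M * k))
    linarith
  obtain ⟨m1, hm1, h1⟩ := glue_num (f := fun m => (fs (T1 (h * k) (2 * R)) m).card) hQ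
    (pow_pos he k) (pow_pos he k) hrow hrow (fun m hm => hc m (by omega))
    (fun m hm => hc m (by omega)) hmk hmk (T1_card (h * k) (2 * R) hkT' (M * k) (M * k))
  have hm1Q : (m1 : ℝ) + 1 ≤ Q := by
    have : (m1 : ℝ) ≤ ((2 * (M * k) : ℕ) : ℝ) := by exact_mod_cast (by omega : m1 ≤ 2 * (M * k))
    linarith
  obtain ⟨m2, hm2, h2⟩ := glue_num (f := fun m => (fs (UT (h * k) (2 * R)) m).card) hQ
    (div_pos (mul_pos (pow_pos he k) (pow_pos he k)) (pow_pos hQ0 4)) (pow_pos he k) h1 hrow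
    (fun m hm => hc m (by omega)) (fun m hm => hc m (by omega)) hm1Q hmk
    (UT_card (h * k) (2 * R) m1 (M * k))
  refine ⟨m2, by omega, ?_⟩
  refine le_trans (le_of_eq ?_) h2
  congr 1
  rw [show 3 * k = k + k + k by ring, pow_add, pow_add]
  field_simp

/-- **snakes**: lower bound for the number of snakes -/
theorem snakes {N R h k J : ℕ} {e Q : ℝ} {mU n : ℕ} (hN : 2 ≤ N) (hh : 1 ≤ h)
    (hk : 2 * (2 * R) < h * k) (hJ : 1 ≤ J) (he : 0 < e) (he1 : e ≤ 1) (hQ : 1 ≤ Q)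
    (hQe : e ≤ 1 / Q ^ 8)
    (hb : mu ^ (2 * (N / 2)) * e ≤ ((fs (Br h 0 (2 * R)) (2 * (N / 2))).card : ℝ))
    (htl : ∀ m ≤ N, mu ^ m * e ≤ ((fs (Tl R) m).card : ℝ))
    (hU : mu ^ mU * (e ^ (3 * k) / Q ^ 8) ≤ ((fs (UT (h * k) (2 * R)) mU).card : ℝ))
    (hmU : mU ≤ 3 * ((2 * (N / 2)) * k)) {B : ℤ} (hB : 3 * (h * k : ℤ) + 2 * R ≤ B) :
    ∃ j t : ℕ, j * ((2 * (N / 2)) * J) ≤ n ∧ t * (2 * (N / 2)) ≤ n ∧
      mu ^ n * e ^ (j * (J + 3 * k + 1) + t + 1) ≤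
        ((fs (Sn (h * J) B (h * k * j + 2 * R) (2 * R)) n).card : ℝ) := by
  obtain ⟨M, hM⟩ : ∃ M, M = 2 * (N / 2) := ⟨_, rfl⟩
  have hM1 : 1 ≤ M := by omega
  have hMN : M ≤ N := by omega
  rw [← hM] at hb hmU ⊢
  have hmu := mu_pos
  have hQ0 : 0 < Q := by linarith
  have hT : (0 : ℤ) ≤ 2 * R := by omega
  obtain ⟨mZ, hmZ⟩ : ∃ mZ, mZ = M * J + mU := ⟨_, rfl⟩
  have hmZ1 : 1 ≤ mZ := by
    have : 1 ≤ M * J := Nat.mul_pos hM1 hJ
    omega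
  obtain ⟨j, hj⟩ : ∃ j, j = n / mZ := ⟨_, rfl⟩
  obtain ⟨m0, hm0⟩ : ∃ m0, m0 = n % mZ := ⟨_, rfl⟩
  have hdiv : mZ * j + m0 = n := by rw [hj, hm0]; exact Nat.div_add_mod n mZ
  have hm0lt : m0 < mZ := by rw [hm0]; exact Nat.mod_lt _ hmZ1
  obtain ⟨t, ht⟩ : ∃ t, t = m0 / M := ⟨_, rfl⟩
  obtain ⟨s, hs⟩ : ∃ s, s = m0 % M := ⟨_, rfl⟩
  have hdiv2 : M * t + s = m0 := by rw [ht, hs]; exact Nat.div_add_mod m0 M
  have hslt : s < M := by rw [hs]; exact Nat.mod_lt _ hM1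
  have htJ : t ≤ J + 3 * k := by
    have h1 : M * t ≤ M * (J + 3 * k) := by
      have : M * (J + 3 * k) = M * J + 3 * (M * k) := by ring
      omega
    exact Nat.le_of_mul_le_mul_left h1 hM1
  refine ⟨j, t, ?_, ?_, ?_⟩
  · have : j * (M * J) ≤ mZ * j := by
      rw [mul_comm mZ j]
      exact Nat.mul_le_mul_left _ (by omega)
    omega
  · have : t * M = M * t := by ring
    omega
  -- rows
  have hrow : ∀ i : ℕ, mu ^ (M * i) * e ^ i ≤ ((fs (Br (h * i) 0 (2 * R)) (M * i)).card : ℝ) := by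
    intro i
    have h1 := Br_card_pow h (2 * R) hT M i
    have h2 : ((fs (Br h 0 (2 * R)) M).card : ℝ) ^ i ≤
        ((fs (Br (h * i) 0 (2 * R)) (M * i)).card : ℝ) := by exact_mod_cast h1
    refine le_trans ?_ h2
    rw [pow_mul, ← mul_pow]
    exact pow_le_pow_left₀ (mul_pos (pow_pos hmu _) he).le hb i
  have hL1 : (1 : ℤ) ≤ (h : ℤ) * J := by
    have : 1 ≤ h * J := Nat.mul_pos hh hJ
    exact_mod_cast this
  have hX : 2 * (2 * (R : ℤ)) < (h : ℤ) * k := by exact_mod_cast hk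
  -- one period
  have hZ : mu ^ mZ * e ^ (J + 3 * k + 1) ≤ ((fs (Zp (h * J) (h * k) (2 * R)) mZ).card : ℝ) := by
    have h1 := Zp_card (h * J) (h * k) (2 * R) hL1 hX (M * J) mU
    have h2 : ((fs (Br (h * J) 0 (2 * R)) (M * J)).card : ℝ) *
        ((fs (UT (h * k) (2 * R)) mU).card : ℝ) ≤
        ((fs (Zp (h * J) (h * k) (2 * R)) (M * J + mU)).card : ℝ) := by exact_mod_cast h1
    rw [hmZ]
    refine le_trans ?_ h2
    have h3 : mu ^ (M * J + mU) * e ^ (J + 3 * k + 1) ≤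
        (mu ^ (M * J) * e ^ J) * (mu ^ mU * (e ^ (3 * k) / Q ^ 8)) := by
      rw [pow_add mu, show J + 3 * k + 1 = J + (3 * k + 1) by ring, pow_add e, pow_add e, pow_one]
      have h4 : e ^ (3 * k) * e ≤ e ^ (3 * k) / Q ^ 8 := by
        rw [div_eq_mul_one_div]
        exact mul_le_mul_of_nonneg_left hQe (pow_pos he _).le
      have h5 : 0 < mu ^ (M * J) * mu ^ mU * e ^ J :=
        mul_pos (mul_pos (pow_pos hmu _) (pow_pos hmu _)) (pow_pos he _)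
      calc mu ^ (M * J) * mu ^ mU * (e ^ J * (e ^ (3 * k) * e))
          = (mu ^ (M * J) * mu ^ mU * e ^ J) * (e ^ (3 * k) * e) := by ring
        _ ≤ (mu ^ (M * J) * mu ^ mU * e ^ J) * (e ^ (3 * k) / Q ^ 8) :=
            mul_le_mul_of_nonneg_left h4 h5.le
        _ = _ := by ring
    refine h3.trans ?_
    have g1 : 0 < mu ^ (M * J) * e ^ J := mul_pos (pow_pos hmu _) (pow_pos he _)
    have g2 : 0 < mu ^ mU * (e ^ (3 * k) / Q ^ 8) :=
      mul_pos (pow_pos hmu _) (div_pos (pow_pos he _) (pow_pos hQ0 8))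
    exact mul_le_mul (hrow J) hU g2.le (g1.le.trans (hrow J))
  -- the last part
  have hbase : mu ^ m0 * e ^ (t + 1) ≤
      ((fs (Sn (h * J) B (2 * R) (2 * R)) m0).card : ℝ) := by
    have hk0 : (0 : ℤ) ≤ (h : ℤ) * k := by positivity
    have h0 : (h : ℤ) * t + R ≤ (h : ℤ) * J + B := by
      have h1 : (t : ℤ) ≤ J + 3 * k := by exact_mod_cast htJ
      have h2 : (h : ℤ) * t ≤ h * (J + 3 * k) :=
        mul_le_mul_of_nonneg_left h1 (Int.natCast_nonneg h)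
      have h3 : (h : ℤ) * (J + 3 * k) = h * J + 3 * (h * k) := by ring
      have h4 : (0 : ℤ) ≤ R := Int.natCast_nonneg R
      linarith
    have h1 := Sn_base (h * J) B (2 * R) (h * t) R (M * t) s (by omega) h0 (by omega)
    rw [hdiv2] at h1
    have h2 : ((fs (Br (h * t) 0 (2 * R)) (M * t)).card : ℝ) * ((fs (Tl R) s).card : ℝ) ≤
        ((fs (Sn (h * J) B (2 * R) (2 * R)) m0).card : ℝ) := by exact_mod_cast h1
    refine le_trans ?_ h2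
    have h3 := htl s (by omega)
    have g1 : 0 < mu ^ (M * t) * e ^ t := mul_pos (pow_pos hmu _) (pow_pos he _)
    have g2 : 0 < mu ^ s * e := mul_pos (pow_pos hmu _) he
    calc mu ^ m0 * e ^ (t + 1) = (mu ^ (M * t) * e ^ t) * (mu ^ s * e) := by
          rw [← hdiv2, pow_add, pow_add, pow_one]; ring
      _ ≤ _ := mul_le_mul (hrow t) h3 g2.le (g1.le.trans (hrow t))
  -- all periods
  have hpow := Sn_pow (h * J) (h * k) B (2 * R) hL1 hX (by positivity) (by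
    have hk0 : (0 : ℤ) ≤ (h : ℤ) * k := by positivity
    linarith) mZ m0 j
  rw [hdiv] at hpow
  have hpowR : ((fs (Zp (h * J) (h * k) (2 * R)) mZ).card : ℝ) ^ j *
      ((fs (Sn (h * J) B (2 * R) (2 * R)) m0).card : ℝ) ≤
      ((fs (Sn (h * J) B (h * k * j + 2 * R) (2 * R)) n).card : ℝ) := by exact_mod_cast hpow
  refine le_trans ?_ hpowR
  have g0 : 0 < mu ^ mZ * e ^ (J + 3 * k + 1) := mul_pos (pow_pos hmu _) (pow_pos he _)
  have g1 : (mu ^ mZ * e ^ (J + 3 * k + 1)) ^ j ≤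
      ((fs (Zp (h * J) (h * k) (2 * R)) mZ).card : ℝ) ^ j := pow_le_pow_left₀ g0.le hZ j
  have g2 : 0 < mu ^ m0 * e ^ (t + 1) := mul_pos (pow_pos hmu _) (pow_pos he _)
  calc mu ^ n * e ^ (j * (J + 3 * k + 1) + t + 1)
      = (mu ^ mZ * e ^ (J + 3 * k + 1)) ^ j * (mu ^ m0 * e ^ (t + 1)) := by
        rw [← hdiv, mul_pow, ← pow_mul, ← pow_mul, pow_add mu,
          show j * (J + 3 * k + 1) + t + 1 = (J + 3 * k + 1) * j + (t + 1) by ring, pow_add e]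
        ring
    _ ≤ _ := mul_le_mul g1 hbase g2.le ((pow_pos g0 j).le.trans g1)

end Pool.Agent.Helper365.SB
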